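import Mathlib

set_option linter.unusedSectionVars false

/-!
# Basic facts on (non-commutative) lattice-ordered groups
-/

namespace Pool.Agent.H74

section lgroup

variable {G : Type} [Group G] [Lattice G] [MulLeftMono G] [MulRightMono G]

lemma conj_le_conj {a b : G} (h : a ≤ b) (x : G) : x⁻¹ * a * x ≤ x⁻¹ * b * x :=
  mul_le_mul_left (mul_le_mul_right h _) _

lemma conj_sup (a b x : G) : x⁻¹ * (a ⊔ b) * x = (x⁻¹ * a * x) ⊔ (x⁻¹ * b * x) := by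
  rw [mul_sup, sup_mul]

lemma conj_inf (a b x : G) : x⁻¹ * (a ⊓ b) * x = (x⁻¹ * a * x) ⊓ (x⁻¹ * b * x) := by
  rw [mul_inf, inf_mul]

lemma one_le_conj {a : G} (h : 1 ≤ a) (x : G) : 1 ≤ x⁻¹ * a * x := by
  have := conj_le_conj h x
  simpa using this

lemma inf_mul_le {a b c : G} (ha : 1 ≤ a) (hb : 1 ≤ b) (hc : 1 ≤ c) :
    a ⊓ (b * c) ≤ (a ⊓ b) * (a ⊓ c) := by
  rw [mul_inf, inf_mul, inf_mul]
  refine le_inf (le_inf ?_ ?_) (le_inf ?_ ?_)
  · exact inf_le_left.trans (le_mul_of_one_le_left' ha)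
  · exact inf_le_left.trans (le_mul_of_one_le_left' hb)
  · exact inf_le_left.trans (le_mul_of_one_le_right' hc)
  · exact inf_le_right

lemma one_le_of_inf_left {a b : G} (h : a ⊓ b = 1) : 1 ≤ a := h ▸ inf_le_left

lemma one_le_of_inf_right {a b : G} (h : a ⊓ b = 1) : 1 ≤ b := h ▸ inf_le_right

lemma inf_mul_eq_one {a b c : G} (h1 : a ⊓ b = 1) (h2 : a ⊓ c = 1) : a ⊓ (b * c) = 1 := by
  have ha := one_le_of_inf_left h1
  have hb := one_le_of_inf_right h1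
  have hc := one_le_of_inf_right h2
  refine le_antisymm ?_ (le_inf ha (one_le_mul hb hc))
  have := inf_mul_le ha hb hc
  rwa [h1, h2, one_mul] at this

/-- elements below disjoint elements are disjoint -/
lemma inf_eq_one_of_le {a b a' b' : G} (h : a ⊓ b = 1) (h1 : 1 ≤ a') (h2 : a' ≤ a)
    (h3 : 1 ≤ b') (h4 : b' ≤ b) : a' ⊓ b' = 1 :=
  le_antisymm (h ▸ inf_le_inf h2 h4) (le_inf h1 h3)

lemma mul_eq_sup_of_disj {a b : G} (h : a ⊓ b = 1) : a * b = a ⊔ b := by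
  have h1 : a * (a ⊓ b)⁻¹ * b = a ⊔ b := by
    rw [inv_inf, mul_sup, sup_mul, mul_inv_cancel, one_mul, mul_assoc, inv_mul_cancel, mul_one,
      sup_comm]
  rw [← h1, h]
  simp

lemma mul_comm_of_disj {a b : G} (h : a ⊓ b = 1) : a * b = b * a := by
  rw [mul_eq_sup_of_disj h, mul_eq_sup_of_disj (by rw [inf_comm]; exact h), sup_comm]

lemma conj_disj {a b : G} (h : a ⊓ b = 1) (x : G) : (x⁻¹ * a * x) ⊓ (x⁻¹ * b * x) = 1 := by
  rw [← conj_inf, h]; simp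

/-- The key non-amalgamation computation, valid in every lattice-ordered group. -/
lemma no_amalgam {b c x y z : G} (hb : 1 ≤ b) (hc : 1 ≤ c) (hbz : b ⊓ z = 1) (hcx : c ⊓ x = 1)
    (hxy : b⁻¹ * x * b = y) (hzy : c⁻¹ * z * c = y) (hd : x ⊓ y = 1) : y = 1 := by
  -- p = c⁻¹ b c, q = b⁻¹ c b are disjoint from y
  have hp : (c⁻¹ * b * c) ⊓ y = 1 := by rw [← hzy]; exact conj_disj hbz c
  have hq : (b⁻¹ * c * b) ⊓ y = 1 := by rw [← hxy]; exact conj_disj hcx b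
  have hpq : y ⊓ ((c⁻¹ * b * c) * (b⁻¹ * c * b)) = 1 :=
    inf_mul_eq_one (by rw [inf_comm]; exact hp) (by rw [inf_comm]; exact hq)
  have hle : b ≤ (c⁻¹ * b * c) * (b⁻¹ * c * b) := by
    -- c⁻¹ b ≤ p
    have h1 : c⁻¹ * b ≤ c⁻¹ * b * c := le_mul_of_one_le_right' hc
    -- (c⁻¹ b)⁻¹ = b⁻¹ c, b = (c⁻¹ b) * (b⁻¹ c b)
    have h2 : b = (c⁻¹ * b) * (b⁻¹ * c * b) := by group
    calc b = (c⁻¹ * b) * (b⁻¹ * c * b) := h2
      _ ≤ (c⁻¹ * b * c) * (b⁻¹ * c * b) := mul_le_mul_left h1 _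
  have hyb : y ⊓ b = 1 := by
    have hy : 1 ≤ y := one_le_of_inf_right hd
    exact inf_eq_one_of_le hpq hy le_rfl hb hle
  have hcomm : y * b = b * y := mul_comm_of_disj hyb
  have hx : x = y := by
    have : x = b * y * b⁻¹ := by rw [← hxy]; group
    rw [this, ← hcomm]; group
  rw [hx, inf_idem] at hd
  exact hd

/-- Representability: disjointness is stable under conjugation of one of the elements. -/
def Rep (G : Type) [Group G] [Lattice G] : Prop :=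
  ∀ a b : G, a ⊓ b = 1 → ∀ x : G, a ⊓ (x⁻¹ * b * x) = 1

lemma pos_inf_neg (g : G) : (g ⊔ 1) ⊓ (g⁻¹ ⊔ 1) = 1 := by
  have h1 : g⁻¹ ⊔ 1 = g⁻¹ * (g ⊔ 1) := by rw [mul_sup, inv_mul_cancel, mul_one, sup_comm]
  have h2 : (g ⊔ 1) ⊓ (g⁻¹ * (g ⊔ 1)) = (1 ⊓ g⁻¹) * (g ⊔ 1) := by rw [inf_mul, one_mul]
  have h3 : (1 : G) ⊓ g⁻¹ = (g ⊔ 1)⁻¹ := by rw [inv_sup, inv_one, inf_comm]
  rw [h1, h2, h3, inv_mul_cancel]

/-- in a representable ℓ-group square roots are unique -/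
lemma Rep.sq_inj (hR : Rep G) {a b : G} (h : a * a = b * b) : a = b := by
  set g := a⁻¹ * b with hg
  have hb : b = a * g := by rw [hg]; group
  have h1 : g * a * g = a := by
    have h0 : a * a = a * g * (a * g) := by rw [← hb]; exact h
    have h2 : a = g * (a * g) := by
      rw [mul_assoc] at h0
      exact mul_left_cancel h0
    rw [mul_assoc]; exact h2.symm
  have h2 : a⁻¹ * g * a = g⁻¹ := by
    have : g * a = a * g⁻¹ := by
      calc g * a = g * a * g * g⁻¹ := by group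
        _ = a * g⁻¹ := by rw [h1]
    rw [mul_assoc, this]; group
  have h3 : a⁻¹ * (g ⊔ 1) * a = g⁻¹ ⊔ 1 := by rw [conj_sup, h2]; simp
  have h4 : a * (g⁻¹ ⊔ 1) * a⁻¹ = g ⊔ 1 := by rw [← h3]; group
  have h5 := hR _ _ (pos_inf_neg g) a⁻¹
  rw [inv_inv, h4, inf_idem] at h5
  have h6 : g⁻¹ ⊔ 1 = 1 := by rw [← h3, h5]; simp
  have h7 : g ≤ 1 := by rw [← h5]; exact le_sup_left
  have h8 : g⁻¹ ≤ 1 := by rw [← h6]; exact le_sup_left
  have h9 : g = 1 := le_antisymm h7 (by simpa using h8)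
  rw [hb, h9, mul_one]

end lgroup

end Pool.Agent.H74
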