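import Pool.Agent.H74.LGBasic

set_option linter.unusedSectionVars false

/-!
# Totally ordered quotients of ℓ-groups, varieties, amalgamation
-/

namespace Pool.Agent.H74

open Function

/-- A normal `total cone`: the set of elements that are `≥ 1` in a totally ordered quotient. -/
structure TCone (G : Type) [Group G] [Lattice G] where
  P : G → Prop
  one_le : ∀ x, 1 ≤ x → P x
  mul : ∀ x y, P x → P y → P (x * y)
  conj : ∀ x g, P x → P (g * x * g⁻¹)
  total : ∀ x, P x ∨ P x⁻¹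
  inf : ∀ x, P x → P (x ⊓ 1)

namespace TCone

variable {G : Type} [Group G] [Lattice G] [MulLeftMono G] [MulRightMono G] (T : TCone G)

lemma P_one : T.P 1 := T.one_le 1 le_rfl

/-- the kernel -/
def N : Subgroup G where
  carrier := {x | T.P x ∧ T.P x⁻¹}
  one_mem' := ⟨T.P_one, by rw [inv_one]; exact T.P_one⟩
  mul_mem' := by
    rintro a b ⟨h1, h2⟩ ⟨h3, h4⟩
    exact ⟨T.mul _ _ h1 h3, by rw [mul_inv_rev]; exact T.mul _ _ h4 h2⟩
  inv_mem' := by
    rintro a ⟨h1, h2⟩
    exact ⟨h2, by rw [inv_inv]; exact h1⟩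

lemma mem_N {x : G} : x ∈ T.N ↔ T.P x ∧ T.P x⁻¹ := Iff.rfl

instance : T.N.Normal where
  conj_mem := by
    rintro n ⟨h1, h2⟩ g
    refine ⟨T.conj _ _ h1, ?_⟩
    have : (g * n * g⁻¹)⁻¹ = g * n⁻¹ * g⁻¹ := by group
    rw [this]
    exact T.conj _ _ h2

/-- the quotient -/
def Q : Type := G ⧸ T.N

instance : Group T.Q := inferInstanceAs (Group (G ⧸ T.N))

/-- the quotient map -/
def proj : G →* T.Q := QuotientGroup.mk' T.N

lemma proj_surj : Surjective T.proj := QuotientGroup.mk'_surjective _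

lemma mk_eq {x y : G} : T.proj x = T.proj y ↔ T.P (x⁻¹ * y) ∧ T.P (y⁻¹ * x) := by
  have : T.proj x = T.proj y ↔ x⁻¹ * y ∈ T.N :=
    (QuotientGroup.eq (s := T.N) (a := x) (b := y))
  rw [this, mem_N]
  have : (x⁻¹ * y)⁻¹ = y⁻¹ * x := by group
  rw [this]

/-- the order on the quotient -/
def le (a b : T.Q) : Prop := ∃ x y, T.proj x = a ∧ T.proj y = b ∧ T.P (x⁻¹ * y)

lemma le_mk {x y : G} : T.le (T.proj x) (T.proj y) ↔ T.P (x⁻¹ * y) := by
  constructor
  · rintro ⟨x', y', hx, hy, h⟩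
    rw [mk_eq] at hx hy
    have : x⁻¹ * y = (x⁻¹ * x') * (x'⁻¹ * y') * (y'⁻¹ * y) := by group
    rw [this]
    exact T.mul _ _ (T.mul _ _ hx.2 h) hy.1
  · intro h
    exact ⟨x, y, rfl, rfl, h⟩

noncomputable instance : LinearOrder T.Q where
  le := T.le
  le_refl a := by
    obtain ⟨x, rfl⟩ := T.proj_surj a
    rw [le_mk, inv_mul_cancel]
    exact T.P_one
  le_trans a b c := by
    obtain ⟨x, rfl⟩ := T.proj_surj a
    obtain ⟨y, rfl⟩ := T.proj_surj b
    obtain ⟨z, rfl⟩ := T.proj_surj c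
    rw [le_mk, le_mk, le_mk]
    intro h1 h2
    have : x⁻¹ * z = (x⁻¹ * y) * (y⁻¹ * z) := by group
    rw [this]
    exact T.mul _ _ h1 h2
  le_antisymm a b := by
    obtain ⟨x, rfl⟩ := T.proj_surj a
    obtain ⟨y, rfl⟩ := T.proj_surj b
    rw [le_mk, le_mk, mk_eq]
    exact fun h1 h2 => ⟨h1, h2⟩
  le_total a b := by
    obtain ⟨x, rfl⟩ := T.proj_surj a
    obtain ⟨y, rfl⟩ := T.proj_surj b
    rw [le_mk, le_mk]
    have : y⁻¹ * x = (x⁻¹ * y)⁻¹ := by group
    rw [this]
    exact T.total _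
  toDecidableLE := Classical.decRel _

lemma mk_le {x y : G} : T.proj x ≤ T.proj y ↔ T.P (x⁻¹ * y) := T.le_mk

lemma one_le_mk {x : G} : 1 ≤ T.proj x ↔ T.P x := by
  have : (1 : T.Q) = T.proj 1 := (map_one _).symm
  rw [this, mk_le]; simp

lemma mk_le_one {x : G} : T.proj x ≤ 1 ↔ T.P x⁻¹ := by
  have : (1 : T.Q) = T.proj 1 := (map_one _).symm
  rw [this, mk_le]; simp

lemma mk_eq_one {x : G} : T.proj x = 1 ↔ T.P x ∧ T.P x⁻¹ := by
  have : (1 : T.Q) = T.proj 1 := (map_one _).symm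
  rw [this, mk_eq]; simp [and_comm]

instance : MulLeftMono T.Q := ⟨by
  intro a b c h
  obtain ⟨x, rfl⟩ := T.proj_surj a
  obtain ⟨y, rfl⟩ := T.proj_surj b
  obtain ⟨z, rfl⟩ := T.proj_surj c
  rw [mk_le] at h
  change T.proj x * T.proj y ≤ T.proj x * T.proj z
  rw [← map_mul, ← map_mul, mk_le]
  have : (x * y)⁻¹ * (x * z) = y⁻¹ * z := by group
  rw [this]; exact h⟩

instance : MulRightMono T.Q := ⟨by
  intro a b c h
  obtain ⟨x, rfl⟩ := T.proj_surj a
  obtain ⟨y, rfl⟩ := T.proj_surj b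
  obtain ⟨z, rfl⟩ := T.proj_surj c
  rw [mk_le] at h
  change T.proj y * T.proj x ≤ T.proj z * T.proj x
  rw [← map_mul, ← map_mul, mk_le]
  have : (y * x)⁻¹ * (z * x) = x⁻¹ * (y⁻¹ * z) * x⁻¹⁻¹ := by group
  rw [this]; exact T.conj _ _ h⟩

lemma proj_mono : Monotone T.proj := by
  intro x y h
  rw [mk_le]
  exact T.one_le _ (by simpa using mul_le_mul_right h x⁻¹)

lemma mk_sup (x y : G) : T.proj (x ⊔ y) = T.proj x ⊔ T.proj y := by
  have key : ∀ x y : G, T.proj x ≤ T.proj y → T.proj (x ⊔ y) = T.proj y := by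
    intro x y h
    rw [mk_le] at h
    rw [mk_eq]
    constructor
    · have : (x ⊔ y)⁻¹ * y = (x⁻¹ * y) ⊓ 1 := by
        rw [inv_sup, inf_mul, inv_mul_cancel]
      rw [this]; exact T.inf _ h
    · refine T.one_le _ ?_
      have : y⁻¹ * y ≤ y⁻¹ * (x ⊔ y) := mul_le_mul_right le_sup_right _
      rwa [inv_mul_cancel] at this
  rcases le_total (T.proj x) (T.proj y) with h | h
  · rw [key x y h, sup_eq_right.mpr h]
  · rw [sup_comm, key y x h, sup_eq_left.mpr h]

lemma mk_inf (x y : G) : T.proj (x ⊓ y) = T.proj x ⊓ T.proj y := by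
  have h1 : x ⊓ y = (x⁻¹ ⊔ y⁻¹)⁻¹ := by rw [inv_sup, inv_inv, inv_inv]
  rw [h1, map_inv, mk_sup, inv_sup, map_inv, map_inv, inv_inv, inv_inv]

end TCone

/-- An (equationally defined) variety of ℓ-groups, in the sense of the frozen statement. -/
structure IsVar (V : ∀ (α : Type) [Group α] [Lattice α], Prop) : Prop where
  mono : ∀ (α : Type) [Group α] [Lattice α], V α →
    ∀ a b c : α, a ≤ b → c * a ≤ c * b ∧ a * c ≤ b * c
  sub : ∀ (α β : Type) [Group α] [Lattice α] [Group β] [Lattice β] (f : α → β),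
    (∀ x y, f (x * y) = f x * f y) → (∀ x y, f (x ⊔ y) = f x ⊔ f y) →
    (∀ x y, f (x ⊓ y) = f x ⊓ f y) → Function.Injective f → V β → V α
  quo : ∀ (α β : Type) [Group α] [Lattice α] [Group β] [Lattice β] (f : α → β),
    (∀ x y, f (x * y) = f x * f y) → (∀ x y, f (x ⊔ y) = f x ⊔ f y) →
    (∀ x y, f (x ⊓ y) = f x ⊓ f y) → Function.Surjective f → V α → V β
  prod : ∀ (ι : Type) (A : ι → Type) [∀ i, Group (A i)] [∀ i, Lattice (A i)],
    (∀ i, V (A i)) → V (∀ i, A i)

/-- lattice homomorphism property -/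
def LatHom {α β : Type} [Lattice α] [Lattice β] (f : α → β) : Prop :=
  (∀ x y, f (x ⊔ y) = f x ⊔ f y) ∧ ∀ x y, f (x ⊓ y) = f x ⊓ f y

lemma LatHom.mono {α β : Type} [Lattice α] [Lattice β] {f : α → β} (h : LatHom f) :
    Monotone f := by
  intro x y hxy
  have := h.1 x y
  rw [sup_eq_right.mpr hxy] at this
  rw [this]; exact le_sup_left

lemma LatHom.comp {α β γ : Type} [Lattice α] [Lattice β] [Lattice γ] {f : α → β} {g : β → γ}
    (hg : LatHom g) (hf : LatHom f) : LatHom (g ∘ f) :=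
  ⟨fun x y => by simp [hf.1, hg.1], fun x y => by simp [hf.2, hg.2]⟩

lemma latHom_of_mono {α β : Type} [LinearOrder α] [Lattice β] {f : α → β} (h : Monotone f) :
    LatHom f :=
  ⟨fun x y => h.map_sup x y, fun x y => h.map_inf x y⟩

/-- The amalgamation property, with bundled group homomorphisms. -/
def AP (V : ∀ (α : Type) [Group α] [Lattice α], Prop) : Prop :=
  ∀ (A B C : Type) [Group A] [Lattice A] [Group B] [Lattice B] [Group C] [Lattice C]
    (f : A →* B) (g : A →* C), LatHom f → Injective f → LatHom g → Injective g →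
    V A → V B → V C →
    ∃ (D : Type) (_ : Group D) (_ : Lattice D), V D ∧
      ∃ (h : B →* D) (k : C →* D), LatHom h ∧ Injective h ∧ LatHom k ∧ Injective k ∧
        ∀ a, h (f a) = k (g a)

section var

variable {V : ∀ (α : Type) [Group α] [Lattice α], Prop} (hV : IsVar V)

include hV

lemma IsVar.left {α : Type} [Group α] [Lattice α] (h : V α) : MulLeftMono α :=
  ⟨fun c a b hab => (hV.mono α h a b c hab).1⟩

lemma IsVar.right {α : Type} [Group α] [Lattice α] (h : V α) : MulRightMono α :=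
  ⟨fun c a b hab => (hV.mono α h a b c hab).2⟩

lemma IsVar.sub' {α β : Type} [Group α] [Lattice α] [Group β] [Lattice β] (f : α →* β)
    (hf : LatHom f) (hi : Injective f) (h : V β) : V α :=
  hV.sub α β f (map_mul f) hf.1 hf.2 hi h

lemma IsVar.quo' {α β : Type} [Group α] [Lattice α] [Group β] [Lattice β] (f : α →* β)
    (hf : LatHom f) (hi : Surjective f) (h : V α) : V β :=
  hV.quo α β f (map_mul f) hf.1 hf.2 hi h

lemma IsVar.quotient {G : Type} [Group G] [Lattice G] [MulLeftMono G] [MulRightMono G]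
    (h : V G) (T : TCone G) : V T.Q :=
  hV.quo' T.proj ⟨T.mk_sup, T.mk_inf⟩ T.proj_surj h

/-- `V` is closed under products `A × B` where `B` is a quotient of `A`. -/
lemma IsVar.prodQuo {A B : Type} [Group A] [Lattice A] [Group B] [Lattice B] (hA : V A)
    (π : A →* B) (hπ : LatHom π) (hs : Surjective π) : V (A × B) := by
  have hF : V (∀ _ : Bool, A) := hV.prod Bool (fun _ => A) (fun _ => hA)
  refine hV.quo (∀ _ : Bool, A) (A × B) (fun f => (f true, π (f false))) ?_ ?_ ?_ ?_ hF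
  · intro x y
    simp
  · intro x y
    simp [hπ.1]
  · intro x y
    simp [hπ.2]
  · rintro ⟨a, b⟩
    obtain ⟨a', rfl⟩ := hs b
    exact ⟨fun c => if c then a else a', by simp⟩

end var

end Pool.Agent.H74
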