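import Pool.Agent.H74.LGTri

set_option linter.unusedSectionVars false

/-!
# The final non-amalgamable formation
-/

namespace Pool.Agent.H74

open Function Filter

section total

variable {G : Type} [Group G] [LinearOrder G] [MulLeftMono G] [MulRightMono G]

section ab

variable {a b : G} (ha : 1 < a) (hab : Commute a b) (h1 : b * b ≤ a) (h2 : b⁻¹ * b⁻¹ ≤ a)

include ha hab h1 h2

lemma ab_one_le : 1 ≤ a * b := by
  rcases le_total 1 b with h | h
  · exact one_le_mul ha.le h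
  · have h3 : 1 ≤ b⁻¹ := one_le_inv'.mpr h
    have h4 : b⁻¹ ≤ a := (le_mul_of_one_le_right' h3).trans h2
    have := mul_le_mul_left h4 b
    rwa [inv_mul_cancel] at this

lemma ab_le_sq : a * b ≤ a * a := by
  refine mul_le_mul_right ?_ a
  rcases le_total 1 b with h | h
  · exact (le_mul_of_one_le_right' h).trans h1
  · exact h.trans ha.le

lemma le_ab_sq : a ≤ (a * b) * (a * b) := by
  have e1 : (a * b) * (a * b) = a * (a * (b * b)) := by
    calc (a * b) * (a * b) = a * (b * a) * b := by simp only [mul_assoc]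
      _ = a * (a * b) * b := by rw [hab.symm.eq]
      _ = a * (a * (b * b)) := by simp only [mul_assoc]
  rw [e1]
  have h3 : 1 ≤ a * (b * b) := by
    have h4 := mul_le_mul_left h2 (b * b)
    have e2 : b⁻¹ * b⁻¹ * (b * b) = 1 := by group
    rwa [e2] at h4
  exact le_mul_of_one_le_right' h3

lemma le_ab_pow {N j : ℕ} (hj : 2 * N ≤ j) : a ^ N ≤ (a * b) ^ j := by
  calc a ^ N ≤ ((a * b) * (a * b)) ^ N := pow_le_pow_left' (le_ab_sq ha hab h1 h2) N
    _ = (a * b) ^ (2 * N) := by rw [← sq, ← pow_mul]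
    _ ≤ (a * b) ^ j := pow_le_pow_right' (ab_one_le ha hab h1 h2) hj

lemma ab_pow_le (j : ℕ) : (a * b) ^ j ≤ a ^ (2 * j) := by
  rw [pow_mul, sq]
  exact pow_le_pow_left' (ab_le_sq ha hab h1 h2) j

lemma sign_one (t : G) : ∃ N : ℕ, ∀ j, N ≤ j → (t ≤ a ^ j ↔ t ≤ (a * b) ^ j) := by
  by_cases h : ∃ N : ℕ, t ≤ a ^ N
  · obtain ⟨N, hN⟩ := h
    refine ⟨2 * N, fun j hj => ⟨fun _ => hN.trans (le_ab_pow ha hab h1 h2 hj), fun _ => ?_⟩⟩
    exact hN.trans (pow_le_pow_right' ha.le (by omega))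
  · push Not at h
    refine ⟨0, fun j _ => ⟨fun h3 => absurd h3 (not_le.mpr (h j)), fun h3 => ?_⟩⟩
    exact absurd (h3.trans (ab_pow_le ha hab h1 h2 j)) (not_le.mpr (h _))

lemma sign_two (t : G) : ∃ N : ℕ, ∀ j, N ≤ j → (a ^ j ≤ t ↔ (a * b) ^ j ≤ t) := by
  by_cases h : ∃ N : ℕ, t < a ^ N
  · obtain ⟨N, hN⟩ := h
    refine ⟨2 * N, fun j hj => ⟨fun h3 => ?_, fun h3 => ?_⟩⟩
    · exact absurd (hN.trans_le (pow_le_pow_right' ha.le (by omega : N ≤ j))) (not_lt.mpr h3)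
    · exact absurd (hN.trans_le (le_ab_pow ha hab h1 h2 hj)) (not_lt.mpr h3)
  · push Not at h
    exact ⟨0, fun j _ => ⟨fun _ => (ab_pow_le ha hab h1 h2 j).trans (h _), fun _ => h j⟩⟩

end ab

lemma sign_main {a b : G} (hab : Commute a b)
    (h1 : 1 ≤ a → b * b ≤ a ∧ b⁻¹ * b⁻¹ ≤ a)
    (h2 : a ≤ 1 → b * b ≤ a⁻¹ ∧ b⁻¹ * b⁻¹ ≤ a⁻¹) (e : G) :
    ∃ N : ℕ, ∀ j, N ≤ j → (1 ≤ a ^ j * e ↔ 1 ≤ (a * b) ^ j * e) := by
  have key : ∀ g : G, 1 ≤ g * e ↔ e⁻¹ ≤ g := by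
    intro g
    constructor
    · intro h
      have := mul_le_mul_left h e⁻¹
      simpa using this
    · intro h
      have := mul_le_mul_left h e
      simpa using this
  rcases lt_trichotomy a 1 with h | h | h
  · have ha : 1 < a⁻¹ := one_lt_inv'.mpr h
    obtain ⟨h3, h4⟩ := h2 h.le
    obtain ⟨N, hN⟩ := sign_two (a := a⁻¹) (b := b⁻¹) ha hab.inv_inv h4
      (by rw [inv_inv]; exact h3) e
    refine ⟨N, fun j hj => ?_⟩
    rw [key, key]
    have e1 : e⁻¹ ≤ a ^ j ↔ (a⁻¹) ^ j ≤ e := by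
      rw [inv_le', inv_pow]
    have e2 : e⁻¹ ≤ (a * b) ^ j ↔ (a⁻¹ * b⁻¹) ^ j ≤ e := by
      rw [inv_le', ← inv_pow, mul_inv_rev, hab.inv_inv.symm.eq]
    rw [e1, e2]
    exact hN j hj
  · subst h
    obtain ⟨h3, h4⟩ := h1 le_rfl
    have hb : b = 1 := by
      rcases le_total 1 b with h | h
      · exact le_antisymm ((le_mul_of_one_le_right' h).trans h3) h
      · have h5 : 1 ≤ b⁻¹ := one_le_inv'.mpr h
        have h6 : b⁻¹ ≤ 1 := (le_mul_of_one_le_right' h5).trans h4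
        exact le_antisymm h (by simpa using h6)
    exact ⟨0, fun j _ => by rw [hb, mul_one]⟩
  · obtain ⟨h3, h4⟩ := h1 h.le
    obtain ⟨N, hN⟩ := sign_one h hab h3 h4 e⁻¹
    refine ⟨N, fun j hj => ?_⟩
    rw [key, key]
    exact hN j hj

end total

/-- A configuration producing a non-amalgamable formation. -/
structure Conf (D : Type) [Group D] [LinearOrder D] where
  c : D
  s : D
  r : D
  q : D
  u : D
  P : Subgroup (D × D)
  comm : ∀ x ∈ P, ∀ y ∈ P, Commute x.1 y.1 ∧ Commute x.1 y.2 ∧ Commute x.2 y.2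
  mem : (r, q) ∈ P
  conj_c : ∀ x ∈ P, ((c * c) * x.1 * (c * c)⁻¹, (c * c) * x.2 * (c * c)⁻¹) ∈ P
  conj_c' : ∀ x ∈ P, ((c * c)⁻¹ * x.1 * (c * c), (c * c)⁻¹ * x.2 * (c * c)) ∈ P
  comm_s : ∀ x ∈ P, Commute s x.1 ∧ Commute s x.2
  dom : ∀ x ∈ P, 1 ≤ x.1 → x.2 * x.2 ≤ x.1 ∧ x.2⁻¹ * x.2⁻¹ ≤ x.1
  u_pos : 1 < u
  cu : Commute c u
  rel_r : s⁻¹ * (c⁻¹ * r * c) * s = (c⁻¹ * r * c) * u
  rel_q : s⁻¹ * (c⁻¹ * q * c) * s = (c⁻¹ * q * c) * u⁻¹
  comm_u : Commute u (c⁻¹ * q * c)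

namespace Conf

variable {D : Type} [Group D] [LinearOrder D] [MulLeftMono D] [MulRightMono D] (K : Conf D)

lemma rel_rq : K.s⁻¹ * (K.c⁻¹ * (K.r * K.q) * K.c) * K.s = K.c⁻¹ * (K.r * K.q) * K.c := by
  have e1 : K.s⁻¹ * (K.c⁻¹ * (K.r * K.q) * K.c) * K.s =
      (K.s⁻¹ * (K.c⁻¹ * K.r * K.c) * K.s) * (K.s⁻¹ * (K.c⁻¹ * K.q * K.c) * K.s) := by group
  rw [e1, K.rel_r, K.rel_q]
  have e2 : K.u * (K.c⁻¹ * K.q * K.c) = (K.c⁻¹ * K.q * K.c) * K.u := K.comm_u.eq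
  calc K.c⁻¹ * K.r * K.c * K.u * (K.c⁻¹ * K.q * K.c * K.u⁻¹)
      = K.c⁻¹ * K.r * K.c * (K.u * (K.c⁻¹ * K.q * K.c)) * K.u⁻¹ := by simp only [mul_assoc]
    _ = K.c⁻¹ * K.r * K.c * ((K.c⁻¹ * K.q * K.c) * K.u) * K.u⁻¹ := by rw [e2]
    _ = K.c⁻¹ * (K.r * K.q) * K.c := by group

/-- the ultrapower -/
abbrev U (D : Type) [Group D] [LinearOrder D] [MulLeftMono D] [MulRightMono D] : Type :=
  UP (fun _ : ℕ => D)

/-- constant sequences -/
noncomputable abbrev cst (g : D) : U D := up (fun _ : ℕ => D) (fun _ => g)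

/-- the element `ρ` -/
noncomputable def rho : U D := up (fun _ : ℕ => D) (fun j => K.r ^ j)

/-- the element `ρ'` -/
noncomputable def rho' : U D := up (fun _ : ℕ => D) (fun j => (K.r * K.q) ^ j)

/-- the common subgroup, as a subgroup of the square of the ultrapower -/
noncomputable def A : Subgroup (U D × U D) :=
  Subgroup.closure {(cst (K.c * K.c), cst (K.c * K.c)), (cst K.s, cst K.s), (K.rho, K.rho')}

/-- normalising elements -/
def Nrm (e : D) : Prop :=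
  (∀ z ∈ K.P, (e * z.1 * e⁻¹, e * z.2 * e⁻¹) ∈ K.P) ∧
    ∀ z ∈ K.P, (e⁻¹ * z.1 * e, e⁻¹ * z.2 * e) ∈ K.P

lemma nrm_mul {e e' : D} (h : K.Nrm e) (h' : K.Nrm e') : K.Nrm (e * e') := by
  constructor
  · intro z hz
    have h1 := h.1 _ (h'.1 z hz)
    have e1 : (e * e' * z.1 * (e * e')⁻¹, e * e' * z.2 * (e * e')⁻¹) =
        (e * (e' * z.1 * e'⁻¹) * e⁻¹, e * (e' * z.2 * e'⁻¹) * e⁻¹) := by
      refine Prod.ext ?_ ?_
      · simp only [mul_inv_rev, mul_assoc]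
      · simp only [mul_inv_rev, mul_assoc]
    rw [e1]
    exact h1
  · intro z hz
    have h1 := h'.2 _ (h.2 z hz)
    have e1 : ((e * e')⁻¹ * z.1 * (e * e'), (e * e')⁻¹ * z.2 * (e * e')) =
        (e'⁻¹ * (e⁻¹ * z.1 * e) * e', e'⁻¹ * (e⁻¹ * z.2 * e) * e') := by
      refine Prod.ext ?_ ?_
      · simp only [mul_inv_rev, mul_assoc]
      · simp only [mul_inv_rev, mul_assoc]
    rw [e1]
    exact h1

lemma nrm_inv {e : D} (h : K.Nrm e) : K.Nrm e⁻¹ := by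
  constructor
  · intro z hz
    have := h.2 z hz
    rwa [inv_inv]
  · intro z hz
    have := h.1 z hz
    rwa [inv_inv]

lemma nrm_one : K.Nrm 1 := by
  constructor
  · intro z hz
    simpa using hz
  · intro z hz
    simpa using hz

/-- description of the elements of `A` -/
lemma A_form {x : U D × U D} (hx : x ∈ K.A) : ∃ y ∈ K.P, ∃ e : D,
    x.1 = up (fun _ : ℕ => D) (fun j => y.1 ^ j * e) ∧
    x.2 = up (fun _ : ℕ => D) (fun j => (y.1 * y.2) ^ j * e) ∧ K.Nrm e := by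
  refine Subgroup.closure_induction ?_ ?_ ?_ ?_ hx
  · intro x hx
    simp only [Set.mem_insert_iff, Set.mem_singleton_iff] at hx
    rcases hx with rfl | rfl | rfl
    · refine ⟨1, K.P.one_mem, K.c * K.c, ?_, ?_, K.conj_c, K.conj_c'⟩
      · simp [cst]
      · simp [cst]
    · refine ⟨1, K.P.one_mem, K.s, ?_, ?_, ?_, ?_⟩
      · simp [cst]
      · simp [cst]
      · intro z hz
        obtain ⟨h1, h2⟩ := K.comm_s z hz
        have : (K.s * z.1 * K.s⁻¹, K.s * z.2 * K.s⁻¹) = z := by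
          refine Prod.ext ?_ ?_
          · rw [h1.eq]; simp
          · rw [h2.eq]; simp
        rw [this]; exact hz
      · intro z hz
        obtain ⟨h1, h2⟩ := K.comm_s z hz
        have : (K.s⁻¹ * z.1 * K.s, K.s⁻¹ * z.2 * K.s) = z := by
          refine Prod.ext ?_ ?_
          · rw [h1.inv_left.eq]; simp
          · rw [h2.inv_left.eq]; simp
        rw [this]; exact hz
    · refine ⟨(K.r, K.q), K.mem, 1, ?_, ?_, K.nrm_one⟩
      · simp [rho]
      · simp [rho']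
  · refine ⟨1, K.P.one_mem, 1, ?_, ?_, K.nrm_one⟩
    · have : (fun j : ℕ => (1 : D × D).1 ^ j * 1) = (1 : ℕ → D) := by
        funext j; simp
      rw [this, map_one]; rfl
    · have : (fun j : ℕ => ((1 : D × D).1 * (1 : D × D).2) ^ j * 1) = (1 : ℕ → D) := by
        funext j; simp
      rw [this, map_one]; rfl
  · rintro x x' - - ⟨y, hy, e, h1, h2, h3⟩ ⟨y', hy', e', h1', h2', h3'⟩
    have hy'' := h3.1 y' hy'
    have c1 := K.comm _ hy _ hy''
    have c2 := K.comm _ hy'' _ hy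
    simp only at c1 c2
    refine ⟨y * (e * y'.1 * e⁻¹, e * y'.2 * e⁻¹), K.P.mul_mem hy hy'', e * e', ?_, ?_,
      K.nrm_mul h3 h3'⟩
    · rw [Prod.fst_mul, h1, h1', ← map_mul]
      congr 1
      funext j
      change y.1 ^ j * e * (y'.1 ^ j * e') = (y.1 * (e * y'.1 * e⁻¹)) ^ j * (e * e')
      rw [c1.1.mul_pow, conj_pow']
      group
    · rw [Prod.snd_mul, h2, h2', ← map_mul]
      congr 1
      funext j
      change (y.1 * y.2) ^ j * e * ((y'.1 * y'.2) ^ j * e') =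
        ((y.1 * (e * y'.1 * e⁻¹)) * (y.2 * (e * y'.2 * e⁻¹))) ^ j * (e * e')
      have e1 : (y.1 * (e * y'.1 * e⁻¹)) * (y.2 * (e * y'.2 * e⁻¹)) =
          (y.1 * y.2) * (e * (y'.1 * y'.2) * e⁻¹) := by
        calc (y.1 * (e * y'.1 * e⁻¹)) * (y.2 * (e * y'.2 * e⁻¹))
            = y.1 * ((e * y'.1 * e⁻¹) * y.2) * (e * y'.2 * e⁻¹) := by simp only [mul_assoc]
          _ = y.1 * (y.2 * (e * y'.1 * e⁻¹)) * (e * y'.2 * e⁻¹) := by rw [c2.2.1.eq]
          _ = (y.1 * y.2) * (e * (y'.1 * y'.2) * e⁻¹) := by group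
      have e2 : Commute (y.1 * y.2) (e * (y'.1 * y'.2) * e⁻¹) := by
        have : e * (y'.1 * y'.2) * e⁻¹ = (e * y'.1 * e⁻¹) * (e * y'.2 * e⁻¹) := by group
        rw [this]
        exact (c1.1.mul_right c1.2.1).mul_left ((c2.2.1.symm).mul_right c1.2.2)
      rw [e1, e2.mul_pow, conj_pow']
      group
  · rintro x - ⟨y, hy, e, h1, h2, h3⟩
    have hy' := h3.2 _ (K.P.inv_mem hy)
    have c1 := K.comm _ hy _ hy
    refine ⟨(e⁻¹ * y⁻¹.1 * e, e⁻¹ * y⁻¹.2 * e), hy', e⁻¹, ?_, ?_, K.nrm_inv h3⟩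
    · rw [Prod.fst_inv, h1, ← map_inv]
      congr 1
      funext j
      change (y.1 ^ j * e)⁻¹ = (e⁻¹ * y.1⁻¹ * e) ^ j * e⁻¹
      rw [conj_pow, mul_inv_rev, inv_pow]
      group
    · rw [Prod.snd_inv, h2, ← map_inv]
      congr 1
      funext j
      change ((y.1 * y.2) ^ j * e)⁻¹ = ((e⁻¹ * y.1⁻¹ * e) * (e⁻¹ * y.2⁻¹ * e)) ^ j * e⁻¹
      have e1 : (e⁻¹ * y.1⁻¹ * e) * (e⁻¹ * y.2⁻¹ * e) = e⁻¹ * (y.1 * y.2)⁻¹ * e := by
        rw [c1.2.1.eq]; group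
      rw [e1, conj_pow, mul_inv_rev, inv_pow]
      group

lemma dom' {x : D × D} (hx : x ∈ K.P) : (1 ≤ x.1 → x.2 * x.2 ≤ x.1 ∧ x.2⁻¹ * x.2⁻¹ ≤ x.1) ∧
    (x.1 ≤ 1 → x.2 * x.2 ≤ x.1⁻¹ ∧ x.2⁻¹ * x.2⁻¹ ≤ x.1⁻¹) := by
  refine ⟨K.dom x hx, fun h => ?_⟩
  have h1 := K.dom x⁻¹ (K.P.inv_mem hx) (show 1 ≤ x.1⁻¹ from one_le_inv'.mpr h)
  have h2 : (x⁻¹).2 = x.2⁻¹ := rfl
  have h3 : (x⁻¹).1 = x.1⁻¹ := rfl
  rw [h2, h3, inv_inv] at h1
  exact ⟨h1.2, h1.1⟩

lemma A_sign {x : U D × U D} (hx : x ∈ K.A) : 1 ≤ x.1 ↔ 1 ≤ x.2 := by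
  obtain ⟨y, hy, e, h1, h2, -⟩ := K.A_form hx
  obtain ⟨N, hN⟩ := sign_main (K.comm y hy y hy).2.1 (K.dom' hy).1 (K.dom' hy).2 e
  have h3 : (1 : U D) = up (fun _ : ℕ => D) (fun _ => 1) := (map_one _).symm
  rw [h1, h2, h3, up_le, up_le]
  exact eventually_congr (hyper_of_large N hN)

/-- the common subgroup as a totally ordered group (order of the first coordinate) -/
def AA : Type := K.A

noncomputable instance : Group K.AA := inferInstanceAs (Group K.A)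

/-- first coordinate -/
noncomputable def f : K.AA →* U D := (MonoidHom.fst (U D) (U D)).comp (Subgroup.subtype K.A)

/-- second coordinate -/
noncomputable def g : K.AA →* U D := (MonoidHom.snd (U D) (U D)).comp (Subgroup.subtype K.A)

lemma sign (x : K.AA) : 1 ≤ K.f x ↔ 1 ≤ K.g x := K.A_sign x.2

lemma le_iff (x y : K.AA) : K.f x ≤ K.f y ↔ K.g x ≤ K.g y := by
  have h1 := K.sign (x⁻¹ * y)
  rw [map_mul, map_mul, map_inv, map_inv, le_inv_mul_iff_mul_le, le_inv_mul_iff_mul_le, mul_one,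
    mul_one] at h1
  exact h1

lemma f_inj : Injective K.f := by
  intro x y h
  have h1 : K.g x = K.g y := le_antisymm ((K.le_iff x y).mp h.le) ((K.le_iff y x).mp h.ge)
  exact Subtype.ext (Prod.ext h h1)

noncomputable instance : LinearOrder K.AA := LinearOrder.lift' K.f K.f_inj

lemma le_def (x y : K.AA) : x ≤ y ↔ K.f x ≤ K.f y := Iff.rfl

lemma g_inj : Injective K.g := by
  intro x y h
  have h1 : K.f x = K.f y := le_antisymm ((K.le_iff x y).mpr h.le) ((K.le_iff y x).mpr h.ge)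
  exact K.f_inj h1

lemma f_mono : Monotone K.f := fun _ _ h => h

lemma g_mono : Monotone K.g := fun x y h => (K.le_iff x y).mp h

end Conf

/-- **Final step.** -/
theorem conf_false {V : ∀ (α : Type) [Group α] [Lattice α], Prop} (hV : IsVar V) (hAP : AP V)
    {D : Type} [Group D] [LinearOrder D] [MulLeftMono D] [MulRightMono D] (hD : V D)
    (K : Conf D) : False := by
  have hU : V (Conf.U D) := hV.up (fun _ => hD)
  have hA : V K.AA := hV.sub' K.f (latHom_of_mono K.f_mono) K.f_inj hU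
  obtain ⟨E, _, _, hE, h, k, hh, hhi, hk, hki, hhk⟩ :=
    hAP K.AA (Conf.U D) (Conf.U D) K.f K.g (latHom_of_mono K.f_mono) K.f_inj
      (latHom_of_mono K.g_mono) K.g_inj hA hU hU
  have := hV.left hE
  have := hV.right hE
  have hRep : Rep E := rep_of_ap hV hAP hE
  have m1 : (Conf.cst (K.c * K.c), Conf.cst (K.c * K.c)) ∈ K.A :=
    Subgroup.subset_closure (by simp)
  have m2 : (Conf.cst K.s, Conf.cst K.s) ∈ K.A := Subgroup.subset_closure (by simp)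
  have m3 : (K.rho, K.rho') ∈ K.A := Subgroup.subset_closure (by simp)
  have e1 : h (Conf.cst (K.c * K.c)) = k (Conf.cst (K.c * K.c)) := hhk ⟨_, m1⟩
  have e2 : h (Conf.cst K.s) = k (Conf.cst K.s) := hhk ⟨_, m2⟩
  have e3 : h K.rho = k K.rho' := hhk ⟨_, m3⟩
  have e4 : h (Conf.cst K.c) = k (Conf.cst K.c) := by
    apply hRep.sq_inj
    have e40 : Conf.cst K.c * Conf.cst K.c = Conf.cst (K.c * K.c) := by
      simp only [Conf.cst]
      rw [← map_mul]; rfl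
    have e41 : h (Conf.cst K.c) * h (Conf.cst K.c) = h (Conf.cst (K.c * K.c)) := by
      rw [← e40]; exact (h.map_mul _ _).symm
    have e42 : k (Conf.cst K.c) * k (Conf.cst K.c) = k (Conf.cst (K.c * K.c)) := by
      rw [← e40]; exact (k.map_mul _ _).symm
    rw [e41, e42, e1]
  set v : Conf.U D := Conf.cst K.c * Conf.cst K.s * (Conf.cst K.c)⁻¹ with hv
  have e5 : h v = k v := by
    rw [hv, map_mul, map_mul, map_mul, map_mul, map_inv, map_inv, e2, e4]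
  have hv' : v = up (fun _ : ℕ => D) (fun _ => K.c * K.s * K.c⁻¹) := by
    rw [hv]
    simp only [Conf.cst]
    rw [← map_inv, ← map_mul, ← map_mul]; rfl
  -- ρ' is fixed
  have e6 : v⁻¹ * K.rho' * v = K.rho' := by
    rw [hv', Conf.rho', ← map_inv, ← map_mul, ← map_mul]
    congr 1
    funext j
    change (K.c * K.s * K.c⁻¹)⁻¹ * (K.r * K.q) ^ j * (K.c * K.s * K.c⁻¹) = (K.r * K.q) ^ j
    rw [← conj_pow]
    congr 1
    have := K.rel_rq
    calc (K.c * K.s * K.c⁻¹)⁻¹ * (K.r * K.q) * (K.c * K.s * K.c⁻¹)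
        = K.c * (K.s⁻¹ * (K.c⁻¹ * (K.r * K.q) * K.c) * K.s) * K.c⁻¹ := by group
      _ = K.r * K.q := by rw [this]; group
  have e7 : v⁻¹ * K.rho * v = K.rho := by
    apply hhi
    rw [map_mul, map_mul, map_inv, e3, e5, ← map_inv, ← map_mul, ← map_mul, e6]
  have e8 : K.rho < v⁻¹ * K.rho * v := by
    rw [hv', Conf.rho, ← map_inv, ← map_mul, ← map_mul, up_lt]
    refine hyper_of_large 1 (fun j hj => ?_)
    change K.r ^ j < (K.c * K.s * K.c⁻¹)⁻¹ * K.r ^ j * (K.c * K.s * K.c⁻¹)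
    rw [← conj_pow]
    have e9 : (K.c * K.s * K.c⁻¹)⁻¹ * K.r * (K.c * K.s * K.c⁻¹) = K.r * K.u := by
      calc (K.c * K.s * K.c⁻¹)⁻¹ * K.r * (K.c * K.s * K.c⁻¹)
          = K.c * (K.s⁻¹ * (K.c⁻¹ * K.r * K.c) * K.s) * K.c⁻¹ := by group
        _ = K.r * (K.c * K.u) * K.c⁻¹ := by rw [K.rel_r]; group
        _ = K.r * K.u := by rw [K.cu.eq]; group
    rw [e9]
    refine pow_lt_pow_left' (by omega) ?_
    exact lt_mul_of_one_lt_right' _ K.u_pos
  exact absurd e8 (by rw [e7]; exact lt_irrefl _)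

end Pool.Agent.H74
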