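import Pool.Agent.H74.LGHub

set_option linter.unusedSectionVars false

/-!
# Heisenberg-type totally ordered members of a non-abelian variety with AP
-/

namespace Pool.Agent.H74

open Function Filter

section main

variable {V : ∀ (α : Type) [Group α] [Lattice α], Prop} (hV : IsVar V) (hAP : AP V)

include hV hAP

/-- kill the elements infinitely smaller than `g` -/
def gCone {G : Type} [Group G] [LinearOrder G] [MulLeftMono G] [MulRightMono G]
    (hG : V G) (g : G) : TCone G where
  P y := 1 ≤ y ∨ ∀ n : ℕ, (y⁻¹) ^ n < g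
  one_le x hx := Or.inl hx
  mul x y hx hy := by
    by_cases hxy : 1 ≤ x * y
    · exact Or.inl hxy
    right
    intro n
    have hxy' : ¬ (1 ≤ x ∧ 1 ≤ y) := fun h => hxy (one_le_mul h.1 h.2)
    rw [mul_inv_rev]
    rcases le_total x⁻¹ y⁻¹ with h | h
    · refine (mul_pow_le_sq le_rfl h n).trans_lt ?_
      rcases hy with h1 | h1
      · have h2 : 1 ≤ x := by
          have : x⁻¹ ≤ 1 := h.trans (by simpa using h1)
          simpa using this
        exact absurd ⟨h2, h1⟩ hxy'
      · exact h1 (2 * n)
    · refine (mul_pow_le_sq h le_rfl n).trans_lt ?_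
      rcases hx with h1 | h1
      · have h2 : 1 ≤ y := by
          have : y⁻¹ ≤ 1 := h.trans (by simpa using h1)
          simpa using this
        exact absurd ⟨h1, h2⟩ hxy'
      · exact h1 (2 * n)
  conj x c hx := by
    rcases hx with h1 | h1
    · left
      have := one_le_conj h1 c⁻¹
      rwa [inv_inv] at this
    · rcases lt_or_ge x 1 with h2 | h2
      · right
        intro n
        have h3 : 1 < x⁻¹ := one_lt_inv'.mpr h2
        have h4 := conj_le_sq hV hAP hG x⁻¹ c⁻¹ h3
        rw [inv_inv] at h4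
        have e1 : (c * x * c⁻¹)⁻¹ = c * x⁻¹ * c⁻¹ := by group
        rw [e1]
        refine (pow_le_pow_left' h4.le n).trans_lt ?_
        rw [← sq, ← pow_mul]
        exact h1 _
      · left
        have := one_le_conj h2 c⁻¹
        rwa [inv_inv] at this
  total x := by
    rcases le_total 1 x with h | h
    · exact Or.inl (Or.inl h)
    · exact Or.inr (Or.inl (one_le_inv'.mpr h))
  inf x hx := by
    rcases le_total 1 x with h | h
    · rw [inf_eq_right.mpr h]; exact Or.inl le_rfl
    · rw [inf_eq_left.mpr h]; exact hx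

/-- a non-commuting pair gives a Heisenberg-type totally ordered member -/
theorem exists_heis (hna : ∃ (α : Type) (_ : Group α) (_ : Lattice α), V α ∧
    ∃ a b : α, a * b ≠ b * a) :
    ∃ (G : Type) (_ : Group G) (_ : LinearOrder G) (_ : MulLeftMono G) (_ : MulRightMono G),
      V G ∧ ∃ x a z : G, 1 < z ∧ (∀ n : ℕ, z ^ n < x) ∧ a⁻¹ * x * a = x * z ∧
        ∀ y, z * y = y * z := by
  obtain ⟨α, _, _, hα, a, b, hab⟩ := hna
  have := hV.left hα
  have := hV.right hα
  have hRep : Rep α := rep_of_ap hV hAP hα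
  have hne : (b * a)⁻¹ * (a * b) ≠ 1 := by
    intro hcon
    apply hab
    calc a * b = (b * a) * ((b * a)⁻¹ * (a * b)) := by group
      _ = b * a := by rw [hcon, mul_one]
  obtain ⟨T, hT⟩ := exists_total_quotient hRep _ hne
  have hTV : V T.Q := hV.quotient hα T
  -- reduce to noncommuting pair with x > 1
  have key : ∃ x c : T.Q, 1 < x ∧ 1 < x⁻¹ * (c⁻¹ * x * c) := by
    set A := T.proj a with hA
    set B := T.proj b with hB
    have hAB : A * B ≠ B * A := by
      intro hcon
      apply hT
      rw [map_mul, map_inv, map_mul, map_mul, ← hA, ← hB, hcon]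
      group
    have h1 : ∃ x c : T.Q, 1 < x ∧ x * c ≠ c * x := by
      rcases lt_trichotomy A 1 with h | h | h
      · refine ⟨A⁻¹, B, one_lt_inv'.mpr h, fun hcon => hAB ?_⟩
        calc A * B = A * (B * A⁻¹) * A := by group
          _ = A * (A⁻¹ * B) * A := by rw [hcon]
          _ = B * A := by group
      · exact absurd (by rw [h]; simp) hAB
      · exact ⟨A, B, h, hAB⟩
    obtain ⟨x, c, hx, hc⟩ := h1
    rcases lt_trichotomy x (c⁻¹ * x * c) with h | h | h
    · refine ⟨x, c, hx, ?_⟩
      have := mul_lt_mul_right h x⁻¹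
      simpa using this
    · exfalso
      apply hc
      calc x * c = c * (c⁻¹ * x * c) := by group
        _ = c * x := by rw [← h]
    · refine ⟨x, c⁻¹, hx, ?_⟩
      have h2 := conj_lt_conj h c⁻¹
      have e1 : c⁻¹⁻¹ * (c⁻¹ * x * c) * c⁻¹ = x := by group
      rw [e1] at h2
      have := mul_lt_mul_right h2 x⁻¹
      simpa using this
  obtain ⟨x, c, hx, hg⟩ := key
  set g := x⁻¹ * (c⁻¹ * x * c) with hgdef
  have hgx : ∀ n : ℕ, g ^ n < x := fun n => wa1 hV hAP hTV x c hx n
  let S := gCone hV hAP hTV g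
  have hz : 1 < S.proj g := by
    refine lt_of_le_of_ne (S.one_le_mk.mpr (Or.inl hg.le)) (fun hcon => ?_)
    have h1 := (S.mk_eq_one.mp hcon.symm).2
    rcases h1 with h1 | h1
    · have : g ≤ 1 := by simpa using h1
      exact absurd hg (not_lt.mpr this)
    · have := h1 1
      simp at this
  refine ⟨S.Q, inferInstance, inferInstance, inferInstance, inferInstance, hV.quotient hTV S,
    S.proj x, S.proj c, S.proj g, hz, ?_, ?_, ?_⟩
  · intro n
    have h1 : S.proj g ^ n < S.proj g ^ (n + 1) := pow_lt_pow_right' hz (Nat.lt_succ_self n)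
    refine h1.trans_le ?_
    rw [← map_pow]
    exact S.proj_mono (hgx (n + 1)).le
  · rw [← map_inv, ← map_mul, ← map_mul, ← map_mul]
    congr 1
    rw [hgdef]; group
  · intro y
    obtain ⟨y, rfl⟩ := S.proj_surj y
    have h1 : S.proj (g⁻¹ * (y⁻¹ * g * y)) = 1 := by
      rw [S.mk_eq_one]
      rcases le_total 1 (g⁻¹ * (y⁻¹ * g * y)) with h | h
      · refine ⟨Or.inl h, Or.inr (fun n => ?_)⟩
        rw [inv_inv]
        exact wa1 hV hAP hTV g y hg n
      · refine ⟨Or.inr (fun n => ?_), Or.inl (one_le_inv'.mpr h)⟩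
        have e1 : (g⁻¹ * (y⁻¹ * g * y))⁻¹ = (y⁻¹ * g * y)⁻¹ * g := by group
        rw [e1]
        exact wa2 hV hAP hTV g y hg n
    have h2 : S.proj g * S.proj y = S.proj y * S.proj g := by
      have h3 : S.proj y * S.proj g * S.proj (g⁻¹ * (y⁻¹ * g * y)) = S.proj g * S.proj y := by
        rw [← map_mul, ← map_mul, ← map_mul]
        congr 1
        group
      rw [← h3, h1, mul_one]
    exact h2

end main

end Pool.Agent.H74
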