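import Pool.Agent.H74.LGWA

set_option linter.unusedSectionVars false

/-!
# The lexicographically ordered group `ℤ^n` and liftable automorphisms
-/

namespace Pool.Agent.H74

open Function Filter

/-- `ℤ^n` with the lexicographic order, written multiplicatively. -/
abbrev Hub (n : ℕ) : Type := Multiplicative (Lex (Fin n → ℤ))

/-- the element of the hub with coordinates `p` -/
def hb {n : ℕ} (p : Fin n → ℤ) : Hub n := Multiplicative.ofAdd (toLex p)

lemma hb_add {n : ℕ} (p q : Fin n → ℤ) : hb (p + q) = hb p * hb q := rfl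

lemma hb_zero {n : ℕ} : hb (0 : Fin n → ℤ) = 1 := rfl

lemma hb_neg {n : ℕ} (p : Fin n → ℤ) : hb (-p) = (hb p)⁻¹ := rfl

lemma hb_surj {n : ℕ} : Surjective (hb : (Fin n → ℤ) → Hub n) := fun a =>
  ⟨ofLex (Multiplicative.toAdd a), rfl⟩

lemma hb_inj {n : ℕ} : Injective (hb : (Fin n → ℤ) → Hub n) := fun _ _ h => h

/-- lexicographic positivity -/
def LexPos {n : ℕ} (p : Fin n → ℤ) : Prop := ∃ i, (∀ j < i, p j = 0) ∧ 0 < p i

lemma one_lt_hb {n : ℕ} {p : Fin n → ℤ} : 1 < hb p ↔ LexPos p := by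
  constructor
  · rintro ⟨i, h1, h2⟩
    exact ⟨i, fun j hj => (h1 j hj).symm, h2⟩
  · rintro ⟨i, h1, h2⟩
    exact ⟨i, fun j hj => (h1 j hj).symm, h2⟩

/-- build a homomorphism from the hub -/
def mkHub {n : ℕ} {G : Type} [Group G] (F : (Fin n → ℤ) → G)
    (hF : ∀ p q, F (p + q) = F p * F q) : Hub n →* G :=
  MonoidHom.mk' (fun a => F (ofLex (Multiplicative.toAdd a))) (fun a b => hF _ _)

lemma mkHub_apply {n : ℕ} {G : Type} [Group G] (F : (Fin n → ℤ) → G)
    (hF : ∀ p q, F (p + q) = F p * F q) (p : Fin n → ℤ) : mkHub F hF (hb p) = F p := rfl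

section total

variable {G : Type} [Group G] [LinearOrder G] [MulLeftMono G] [MulRightMono G]

lemma strictMono_of_pos {A : Type} [Group A] [LinearOrder A] [MulLeftMono A] [MulRightMono A]
    (F : A →* G) (h : ∀ a, 1 < a → 1 < F a) : StrictMono F := by
  intro a b hab
  have h1 : 1 < a⁻¹ * b := by
    have := mul_lt_mul_right hab a⁻¹
    simpa using this
  have h2 := h _ h1
  rw [map_mul, map_inv] at h2
  have := mul_lt_mul_right h2 (F a)
  simpa using this

lemma hub_strictMono {n : ℕ} (F : Hub n →* G) (h : ∀ p, LexPos p → 1 < F (hb p)) :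
    StrictMono F := by
  refine strictMono_of_pos F (fun a ha => ?_)
  obtain ⟨p, rfl⟩ := hb_surj a
  exact h p (one_lt_hb.mp ha)

end total

/-- `φ` is liftable: `φ` is bijective and there is a member of `V` containing the hub in which
`φ` is induced by conjugation. -/
def Lam (V : ∀ (α : Type) [Group α] [Lattice α], Prop) (n : ℕ)
    (φ : (Fin n → ℤ) → (Fin n → ℤ)) : Prop :=
  Bijective φ ∧ ∃ (G : Type) (_ : Group G) (_ : Lattice G), V G ∧
    ∃ ι : Hub n →* G, LatHom ι ∧ Injective ι ∧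
      ∃ g : G, ∀ p, g⁻¹ * ι (hb p) * g = ι (hb (φ p))

/-- simultaneous liftability of two maps -/
def Lam2 (V : ∀ (α : Type) [Group α] [Lattice α], Prop) (n : ℕ)
    (φ ψ : (Fin n → ℤ) → (Fin n → ℤ)) : Prop :=
  ∃ (G : Type) (_ : Group G) (_ : Lattice G), V G ∧
    ∃ ι : Hub n →* G, LatHom ι ∧ Injective ι ∧
      ∃ g h : G, (∀ p, g⁻¹ * ι (hb p) * g = ι (hb (φ p))) ∧
        ∀ p, h⁻¹ * ι (hb p) * h = ι (hb (ψ p))

section lam

variable {V : ∀ (α : Type) [Group α] [Lattice α], Prop} (hV : IsVar V) (hAP : AP V)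

include hV hAP

lemma Lam.lam2 {n : ℕ} {φ ψ : (Fin n → ℤ) → (Fin n → ℤ)} (h1 : Lam V n φ) (h2 : Lam V n ψ) :
    Lam2 V n φ ψ := by
  obtain ⟨-, G, _, _, hG, ι, hι, hιi, g, hg⟩ := h1
  obtain ⟨-, G', _, _, hG', ι', hι', hιi', g', hg'⟩ := h2
  have hA : V (Hub n) := hV.sub' ι hι hιi hG
  obtain ⟨D, _, _, hD, h, k, hh, hhi, hk, hki, hhk⟩ :=
    hAP (Hub n) G G' ι ι' hι hιi hι' hιi' hA hG hG'
  refine ⟨D, _, _, hD, h.comp ι, hh.comp hι, hhi.comp hιi, h g, k g', ?_, ?_⟩
  · intro p
    simp only [MonoidHom.comp_apply]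
    rw [← map_inv, ← map_mul, ← map_mul, hg]
  · intro p
    simp only [MonoidHom.comp_apply]
    rw [hhk, hhk, ← map_inv, ← map_mul, ← map_mul, hg']

lemma Lam.comp {n : ℕ} {φ ψ : (Fin n → ℤ) → (Fin n → ℤ)} (h1 : Lam V n φ) (h2 : Lam V n ψ) :
    Lam V n (ψ ∘ φ) := by
  obtain ⟨G, _, _, hG, ι, hι, hιi, g, h, hg, hh⟩ := Lam.lam2 hV hAP h1 h2
  refine ⟨h2.1.comp h1.1, G, _, _, hG, ι, hι, hιi, g * h, ?_⟩
  intro p
  have : (g * h)⁻¹ * ι (hb p) * (g * h) = h⁻¹ * (g⁻¹ * ι (hb p) * g) * h := by group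
  rw [this, hg, hh]; rfl

/-- pass to a totally ordered group -/
lemma Lam2.total {n : ℕ} (hn : 0 < n) {φ ψ : (Fin n → ℤ) → (Fin n → ℤ)} (h1 : Lam2 V n φ ψ) :
    ∃ (G : Type) (_ : Group G) (_ : LinearOrder G) (_ : MulLeftMono G) (_ : MulRightMono G),
      V G ∧ ∃ ι : Hub n →* G, StrictMono ι ∧
      ∃ g h : G, (∀ p, g⁻¹ * ι (hb p) * g = ι (hb (φ p))) ∧
        ∀ p, h⁻¹ * ι (hb p) * h = ι (hb (ψ p)) := by
  obtain ⟨G, _, _, hG, ι, hι, hιi, g, h, hg, hh⟩ := h1
  have := hV.left hG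
  have := hV.right hG
  have hRep : Rep G := rep_of_ap hV hAP hG
  -- the least positive element
  let i₀ : Fin n := ⟨n - 1, by omega⟩
  let w : Fin n → ℤ := Pi.single i₀ 1
  have hw : hb w ≠ 1 := by
    intro hcon
    have h1 : w = 0 := hb_inj hcon
    have h2 := congrFun h1 i₀
    simp [w] at h2
  have hιw : ι (hb w) ≠ 1 := fun hcon => hw (hιi (by rw [hcon, map_one]))
  obtain ⟨T, hT⟩ := exists_total_quotient hRep (ι (hb w)) hιw
  refine ⟨T.Q, inferInstance, inferInstance, inferInstance, inferInstance, hV.quotient hG T,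
    T.proj.comp ι, ?_, T.proj g, T.proj h, ?_, ?_⟩
  · refine hub_strictMono _ (fun p hp => ?_)
    have hmono : Monotone (T.proj.comp ι) := fun a b hab => T.proj_mono (hι.mono hab)
    -- w ≤ p
    have hwp : hb w ≤ hb p := by
      obtain ⟨i, hi1, hi2⟩ := hp
      rcases lt_or_ge i i₀ with h | h
      · refine le_of_lt ⟨i, fun j hj => ?_, ?_⟩
        · have : j ≠ i₀ := (hj.trans h).ne
          change w j = p j
          rw [hi1 j hj]
          simp [w, this]
        · change w i < p i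
          have : i ≠ i₀ := h.ne
          simpa [w, this] using hi2
      · have hii : i = i₀ := by
          apply le_antisymm _ h
          rw [Fin.le_def]; have := i.2; simp only [i₀]; omega
        subst hii
        rcases lt_or_eq_of_le (show (1 : ℤ) ≤ p i₀ by omega) with h2 | h2
        · refine le_of_lt ⟨i₀, fun j hj => ?_, ?_⟩
          · change w j = p j
            rw [hi1 j hj]; simp [w, hj.ne]
          · change w i₀ < p i₀
            simpa [w] using h2
        · have : w = p := by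
            ext j
            rcases lt_or_ge j i₀ with h3 | h3
            · rw [hi1 j h3]; simp [w, h3.ne]
            · have hji : j = i₀ := by
                apply le_antisymm _ h3
                rw [Fin.le_def]; have := j.2; simp only [i₀]; omega
              rw [hji, ← h2]; simp [w]
          rw [this]
    have hw1 : 1 < hb w := one_lt_hb.mpr ⟨i₀, fun j hj => by simp [w, hj.ne], by simp [w]⟩
    have h1 : 1 ≤ (T.proj.comp ι) (hb w) := by
      have := hmono hw1.le
      rwa [map_one] at this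
    have h2 : 1 < (T.proj.comp ι) (hb w) := lt_of_le_of_ne h1 (fun h => hT h.symm)
    exact h2.trans_le (hmono hwp)
  · intro p
    simp only [MonoidHom.comp_apply]
    rw [← map_inv, ← map_mul, ← map_mul, hg]
  · intro p
    simp only [MonoidHom.comp_apply]
    rw [← map_inv, ← map_mul, ← map_mul, hh]

end lam

end Pool.Agent.H74
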