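import Pool.Agent.H74.LGVec

set_option linter.unusedSectionVars false

/-!
# Construction of the configuration
-/

namespace Pool.Agent.H74

open Function Filter

lemma CC_zero (d : ℕ) : CC d 0 = 0 := by
  simp [CC]

lemma CC_neg (d : ℕ) (p : Vec d) : CC d (-p) = -CC d p := by
  have := CC_add d p (-p)
  rw [add_neg_cancel, CC_zero] at this
  exact (neg_eq_of_add_eq_zero_right this.symm).symm

lemma sg_neg (d : ℕ) (p : Vec d) : sg d (-p) = -sg d p := by
  have := sg_add d p (-p)
  rw [add_neg_cancel, sg_zero] at this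
  exact (neg_eq_of_add_eq_zero_right this.symm).symm

lemma theta_zero (d : ℕ) : theta d 0 = 0 := by
  simp [theta]

lemma theta_neg (d : ℕ) (p : Vec d) : theta d (-p) = -theta d p := by
  have := theta_add d p (-p)
  rw [add_neg_cancel, theta_zero] at this
  linarith

/-- the relevant vectors -/
def PK (L K : ℕ) : AddSubgroup (Vec (4 * L + 2)) :=
  AddSubgroup.closure {v | ∃ k : ℕ, L ≤ k + K ∧ k ≤ L + K ∧
    v = (CC (4 * L + 2))^[2 * k] (e0 (4 * L + 2))}

lemma PK_mono {L K K' : ℕ} (h : K ≤ K') : PK L K ≤ PK L K' := by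
  refine AddSubgroup.closure_mono ?_
  rintro v ⟨k, h1, h2, rfl⟩
  exact ⟨k, by omega, by omega, rfl⟩

lemma PK_CC {L K : ℕ} {v : Vec (4 * L + 2)} (hv : v ∈ PK L K) :
    CC _ (CC _ v) ∈ PK L (K + 1) := by
  refine AddSubgroup.closure_induction ?_ ?_ ?_ ?_ hv
  · rintro v ⟨k, h1, h2, rfl⟩
    refine AddSubgroup.subset_closure ⟨k + 1, by omega, by omega, ?_⟩
    have : 2 * (k + 1) = (2 * k + 1) + 1 := by ring
    rw [this, Function.iterate_succ_apply', Function.iterate_succ_apply']
  · rw [CC_zero, CC_zero]; exact AddSubgroup.zero_mem _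
  · intro x y _ _ hx hy
    rw [CC_add, CC_add]; exact AddSubgroup.add_mem _ hx hy
  · intro x _ hx
    rw [CC_neg, CC_neg]; exact AddSubgroup.neg_mem _ hx

lemma PK_CC_inv {L K : ℕ} (hK : K + 1 ≤ L) {w : Vec (4 * L + 2)} (hw : w ∈ PK L K) :
    ∃ v ∈ PK L (K + 1), CC _ (CC _ v) = w := by
  refine AddSubgroup.closure_induction ?_ ?_ ?_ ?_ hw
  · rintro v ⟨k, h1, h2, rfl⟩
    refine ⟨(CC (4 * L + 2))^[2 * (k - 1)] (e0 (4 * L + 2)),
      AddSubgroup.subset_closure ⟨k - 1, by omega, by omega, rfl⟩, ?_⟩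
    have : 2 * k = (2 * (k - 1) + 1) + 1 := by omega
    rw [this, Function.iterate_succ_apply', Function.iterate_succ_apply']
  · exact ⟨0, AddSubgroup.zero_mem _, by rw [CC_zero, CC_zero]⟩
  · rintro x y _ _ ⟨x', hx', rfl⟩ ⟨y', hy', rfl⟩
    exact ⟨x' + y', AddSubgroup.add_mem _ hx' hy', by rw [CC_add, CC_add]⟩
  · rintro x _ ⟨x', hx', rfl⟩
    exact ⟨-x', AddSubgroup.neg_mem _ hx', by rw [CC_neg, CC_neg]⟩

lemma ph_even (k : ℕ) : ph (2 * k) = 0 := by
  simp [ph]

lemma ph_odd (k : ℕ) : ph (2 * k + 1) = 1 := by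
  have : (2 * k + 1) % 2 = 1 := by omega
  simp [ph, this]

lemma theta_PK {L K : ℕ} (hK : K ≤ L) {v : Vec (4 * L + 2)} (hv : v ∈ PK L K) :
    theta _ v = 0 ∧ theta _ (sg _ v) = 0 := by
  refine AddSubgroup.closure_induction ?_ ?_ ?_ ?_ hv
  · rintro v ⟨k, h1, h2, rfl⟩
    rw [theta_iter _ _ (by omega), theta_sg_iter _ _ (by omega), ph_even]
    simp
  · rw [sg_zero, theta_zero]; simp
  · rintro x y _ _ ⟨h1, h2⟩ ⟨h3, h4⟩
    rw [sg_add, theta_add, theta_add, h1, h2, h3, h4]; simp
  · rintro x _ ⟨h1, h2⟩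
    rw [sg_neg, theta_neg, theta_neg, h1, h2]; simp

lemma eu_lexPos (d : ℕ) : LexPos (eu d) := by
  refine ⟨⟨2 * d, by omega⟩, fun j hj => ?_, ?_⟩
  · rw [Fin.lt_def] at hj
    rw [eu, if_neg]
    exact hj.ne
  · rw [eu, if_pos rfl]; exact one_pos

section lvl

variable {d : ℕ} {G : Type} [Group G] [LinearOrder G] [MulLeftMono G] [MulRightMono G]
  {ι : Hub (2 * d + 1) →* G} (hι : StrictMono ι)

include hι

lemma dom_lvl (hd : 0 < d) {v : Vec d} (h : 1 ≤ ι (hb v)) :
    ι (hb (sg d v)) * ι (hb (sg d v)) ≤ ι (hb v) ∧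
      (ι (hb (sg d v)))⁻¹ * (ι (hb (sg d v)))⁻¹ ≤ ι (hb v) := by
  rw [← map_one ι, hι.le_iff_le] at h
  have key : hb (sg d v + sg d v) ≤ hb v ∧ hb (-sg d v + -sg d v) ≤ hb v := by
    rcases eq_or_lt_of_le h with h1 | h1
    · have h2 : v = 0 := hb_inj (by rw [← h1, hb_zero])
      rw [h2, sg_zero]
      simp
    · have h2 := one_lt_hb.mp h1
      have h3 := lexPos_sg hd h2 2
      have h4 := lexPos_sg hd h2 (-2)
      refine ⟨(hb_lt ?_).le, (hb_lt ?_).le⟩
      · have : v - (sg d v + sg d v) = v - (2 : ℤ) • sg d v := by rw [two_smul]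
        rw [this]; exact h3
      · have : v - (-sg d v + -sg d v) = v - (-2 : ℤ) • sg d v := by
          rw [neg_smul, two_smul]; abel
        rw [this]; exact h4
  rw [hb_add, hb_add] at key
  constructor
  · rw [← map_mul]; exact hι.monotone key.1
  · rw [← map_inv, ← map_mul, ← hb_neg]; exact hι.monotone key.2

end lvl

section main

variable {V : ∀ (α : Type) [Group α] [Lattice α], Prop} (hV : IsVar V) (hAP : AP V)
  (hna : ∃ (α : Type) (_ : Group α) (_ : Lattice α), V α ∧ ∃ a b : α, a * b ≠ b * a)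

include hV hAP hna

lemma lam_CC (d : ℕ) : Lam V (2 * d + 1) (CC d) :=
  lam_tri hV hAP hna (by omega) (epsC d) (fun i l h => epsC_tri d i l h)

lemma lam_SS (d : ℕ) : Lam V (2 * d + 1) (SS d) :=
  lam_tri hV hAP hna (by omega) (epsS d) (fun i l h => epsS_tri d i l h)

lemma exists_DL (d : ℕ) :
    ∃ (G : Type) (_ : Group G) (_ : LinearOrder G) (_ : MulLeftMono G) (_ : MulRightMono G),
      V G ∧ ∃ ι : Hub (2 * d + 1) →* G, StrictMono ι ∧
      ∃ g h : G, (∀ p, g⁻¹ * ι (hb p) * g = ι (hb (CC d p))) ∧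
        ∀ p, h⁻¹ * ι (hb p) * h = ι (hb (SS d p)) :=
  ((lam_CC hV hAP hna d).lam2 hV hAP (lam_SS hV hAP hna d)).total hV hAP (by omega)

theorem exists_conf :
    ∃ (D : Type) (_ : Group D) (_ : LinearOrder D) (_ : MulLeftMono D) (_ : MulRightMono D),
      V D ∧ Nonempty (Conf D) := by
  choose G i1 i2 i3 i4 hG ι hι g h hg hh using fun L : ℕ => exists_DL hV hAP hna (4 * L + 2)
  have hbij : ∀ d, Bijective (CC d) := fun d => (lam_CC hV hAP hna d).1
  choose Ci hCi using fun d => (hbij d).2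
  have hCi' : ∀ d v, Ci d (CC d v) = v := fun d v => (hbij d).1 (hCi d _)
  refine ⟨UP G, inferInstance, inferInstance, inferInstance, inferInstance, hV.up hG, ?_⟩
  let em : (∀ L, Vec (4 * L + 2)) → UP G := fun v => up G (fun L => ι L (hb (v L)))
  have em_def : ∀ v, em v = up G (fun L => ι L (hb (v L))) := fun v => rfl
  have em_add : ∀ v w, em (v + w) = em v * em w := by
    intro v w
    rw [em_def, em_def, em_def, ← map_mul]
    congr 1
    funext L
    change ι L (hb (v L + w L)) = ι L (hb (v L)) * ι L (hb (w L))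
    rw [hb_add, map_mul]
  have em_zero : em 0 = 1 := by
    have := em_add 0 0
    rw [add_zero] at this
    exact left_eq_mul.mp this
  have em_neg : ∀ v, em (-v) = (em v)⁻¹ := by
    intro v
    have := em_add v (-v)
    rw [add_neg_cancel, em_zero] at this
    exact (inv_eq_of_mul_eq_one_right this.symm).symm
  have em_comm : ∀ v w, Commute (em v) (em w) := by
    intro v w
    change em v * em w = em w * em v
    rw [← em_add, ← em_add, add_comm]
  have em_c : ∀ v, (up G g)⁻¹ * em v * up G g = em (fun L => CC _ (v L)) := by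
    intro v
    rw [em_def, em_def, ← map_inv, ← map_mul, ← map_mul]
    congr 1
    funext L
    exact hg L _
  have em_s : ∀ v, (up G h)⁻¹ * em v * up G h = em (fun L => SS _ (v L)) := by
    intro v
    rw [em_def, em_def, ← map_inv, ← map_mul, ← map_mul]
    congr 1
    funext L
    exact hh L _
  have em_cc : ∀ v, (up G g * up G g)⁻¹ * em v * (up G g * up G g) =
      em (fun L => CC _ (CC _ (v L))) := by
    intro v
    rw [← em_c, ← em_c]
    group
  have em_eq : ∀ v w : ∀ L, Vec (4 * L + 2), (∃ K, ∀ L, K ≤ L → v L = w L) → em v = em w := by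
    rintro v w ⟨K, hK⟩
    rw [em_def, em_def, up_eq]
    refine hyper_of_large K (fun L hL => ?_)
    rw [hK L hL]
  let P : Subgroup (UP G × UP G) :=
    { carrier := {x | ∃ v : ∀ L, Vec (4 * L + 2), ∃ K : ℕ, (∀ L, K ≤ L → v L ∈ PK L K) ∧
        x.1 = em v ∧ x.2 = em (fun L => sg _ (v L))}
      one_mem' := by
        refine ⟨0, 0, fun L _ => AddSubgroup.zero_mem _, em_zero.symm, ?_⟩
        have : (fun L => sg (4 * L + 2) ((0 : ∀ L, Vec (4 * L + 2)) L)) = 0 := by
          funext L; exact sg_zero _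
        rw [this, em_zero]; rfl
      mul_mem' := by
        rintro x y ⟨v, K, hK, h1, h2⟩ ⟨w, K', hK', h3, h4⟩
        refine ⟨v + w, max K K', fun L hL => AddSubgroup.add_mem _
          (PK_mono (le_max_left _ _) (hK L ((le_max_left _ _).trans hL)))
          (PK_mono (le_max_right _ _) (hK' L ((le_max_right _ _).trans hL))), ?_, ?_⟩
        · rw [em_add, ← h1, ← h3]; rfl
        · have : (fun L => sg (4 * L + 2) ((v + w) L)) =
              (fun L => sg (4 * L + 2) (v L)) + (fun L => sg (4 * L + 2) (w L)) := by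
            funext L; exact sg_add _ _ _
          rw [this, em_add, ← h2, ← h4]; rfl
      inv_mem' := by
        rintro x ⟨v, K, hK, h1, h2⟩
        refine ⟨-v, K, fun L hL => AddSubgroup.neg_mem _ (hK L hL), ?_, ?_⟩
        · rw [em_neg, ← h1]; rfl
        · have : (fun L => sg (4 * L + 2) ((-v) L)) = -(fun L => sg (4 * L + 2) (v L)) := by
            funext L; exact sg_neg _ _
          rw [this, em_neg, ← h2]; rfl }
  have memP : ∀ x, x ∈ P ↔ ∃ v : ∀ L, Vec (4 * L + 2), ∃ K : ℕ, (∀ L, K ≤ L → v L ∈ PK L K) ∧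
        x.1 = em v ∧ x.2 = em (fun L => sg _ (v L)) := fun x => Iff.rfl
  let w0 : ∀ L, Vec (4 * L + 2) := fun L => (CC (4 * L + 2))^[2 * L] (e0 (4 * L + 2))
  let q0 : ∀ L, Vec (4 * L + 2) := fun L => sg _ (w0 L)
  let u0 : ∀ L, Vec (4 * L + 2) := fun L => eu _
  refine ⟨⟨up G g, up G h, em w0, em q0, em u0, P, ?_, ?_, ?_, ?_, ?_, ?_, ?_, ?_, ?_, ?_, ?_⟩⟩
  · -- comm
    rintro x ⟨v, K, hK, h1, h2⟩ y ⟨w, K', hK', h3, h4⟩
    rw [h1, h2, h3, h4]
    exact ⟨em_comm _ _, em_comm _ _, em_comm _ _⟩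
  · -- mem
    rw [memP]
    exact ⟨w0, 0, fun L _ => AddSubgroup.subset_closure ⟨L, by omega, by omega, rfl⟩, rfl, rfl⟩
  · -- conj_c
    rintro x ⟨v, K, hK, h1, h2⟩
    have e1 : ∀ L, CC (4 * L + 2) (CC _ (Ci _ (Ci _ (v L)))) = v L := by
      intro L; rw [hCi, hCi]
    have e2 := em_cc (fun L => Ci _ (Ci _ (v L)))
    simp only [e1] at e2
    have e3 := em_cc (fun L => sg _ (Ci _ (Ci _ (v L))))
    simp only [← sg_CC, e1] at e3
    rw [memP]
    refine ⟨fun L => Ci _ (Ci _ (v L)), K + 1, ?_, ?_, ?_⟩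
    · intro L hL
      obtain ⟨v', hv', hv''⟩ := PK_CC_inv hL (hK L (by omega))
      change Ci _ (Ci _ (v L)) ∈ PK L (K + 1)
      rw [← hv'', hCi', hCi']
      exact hv'
    · rw [h1]
      change up G g * up G g * em (fun L => v L) * (up G g * up G g)⁻¹ = _
      rw [← e2]; group
    · rw [h2]
      change up G g * up G g * em _ * (up G g * up G g)⁻¹ = _
      rw [← e3]; group
  · -- conj_c'
    rintro x ⟨v, K, hK, h1, h2⟩
    rw [memP]
    refine ⟨fun L => CC _ (CC _ (v L)), K + 1, fun L hL => PK_CC (hK L (by omega)), ?_, ?_⟩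
    · rw [h1, ← em_cc]
    · rw [h2]
      simp only [sg_CC]
      rw [← em_cc]
  · -- comm_s
    rintro x ⟨v, K, hK, h1, h2⟩
    have key : ∀ w : ∀ L, Vec (4 * L + 2), (∀ L, K ≤ L → theta _ (w L) = 0) →
        Commute (up G h) (em w) := by
      intro w hw
      have e1 : (up G h)⁻¹ * em w * up G h = em w := by
        rw [em_s]
        refine em_eq _ _ ⟨K, fun L hL => ?_⟩
        rw [SS_eq, hw L hL, zero_smul, add_zero]
      change up G h * em w = em w * up G h
      calc up G h * em w = up G h * ((up G h)⁻¹ * em w * up G h) := by rw [e1]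
        _ = em w * up G h := by group
    rw [h1, h2]
    exact ⟨key _ (fun L hL => (theta_PK hL (hK L hL)).1),
      key _ (fun L hL => (theta_PK hL (hK L hL)).2)⟩
  · -- dom
    rintro x ⟨v, K, hK, h1, h2⟩ hx
    rw [h1] at hx ⊢
    rw [h2]
    have h3 : (1 : UP G) = up G 1 := (map_one _).symm
    rw [h3, em_def, up_le] at hx
    rw [em_def, em_def, ← map_inv, ← map_mul, ← map_mul, up_le, up_le, ← eventually_and]
    filter_upwards [hx] with L hL
    exact dom_lvl (hι L) (by omega) hL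
  · -- u_pos
    rw [em_def, up_one_lt]
    refine Eventually.of_forall (fun L => ?_)
    rw [← map_one (ι L)]
    exact hι L (one_lt_hb.mpr (eu_lexPos _))
  · -- cu
    have e1 := em_c u0
    have e2 : (fun L => CC (4 * L + 2) (u0 L)) = u0 := by
      funext L; exact CC_eu _
    rw [e2] at e1
    change up G g * em u0 = em u0 * up G g
    calc up G g * em u0 = up G g * ((up G g)⁻¹ * em u0 * up G g) := by rw [e1]
      _ = em u0 * up G g := by group
  · -- rel_r
    rw [em_c, em_s, ← em_add]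
    congr 1
    funext L
    change SS _ (CC _ (w0 L)) = CC _ (w0 L) + u0 L
    have e1 : CC _ (w0 L) = (CC (4 * L + 2))^[2 * L + 1] (e0 (4 * L + 2)) := by
      rw [Function.iterate_succ_apply']
    rw [SS_eq, e1, theta_iter _ _ (by omega), ph_odd, one_smul]
  · -- rel_q
    rw [em_c, em_s, ← em_neg, ← em_add]
    congr 1
    funext L
    change SS _ (CC _ (q0 L)) = CC _ (q0 L) + -u0 L
    have e1 : CC _ (q0 L) = sg _ ((CC (4 * L + 2))^[2 * L + 1] (e0 (4 * L + 2))) := by
      rw [Function.iterate_succ_apply', sg_CC]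
    rw [SS_eq, e1, theta_sg_iter _ _ (by omega), ph_odd, neg_smul, one_smul]
  · -- comm_u
    rw [em_c]
    exact em_comm _ _

/-- **Main theorem**: no variety of ℓ-groups with a non-commutative member has the amalgamation
property. -/
theorem main_false : False := by
  obtain ⟨D, _, _, _, _, hD, ⟨K⟩⟩ := exists_conf hV hAP hna
  exact conf_false hV hAP hD K

end main

end Pool.Agent.H74
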