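import Pool.Agent.H74.LGCone

set_option linter.unusedSectionVars false

/-!
# A variety with the amalgamation property is representable
-/

namespace Pool.Agent.H74

open Function

section pre

variable {G : Type} [Group G] [Lattice G] [MulLeftMono G] [MulRightMono G]

lemma one_le_sup_inv (t : G) : 1 ≤ t ⊔ t⁻¹ := by
  apply pow_two_semiclosed
  have h1 : t * t⁻¹ ≤ (t ⊔ t⁻¹) * (t ⊔ t⁻¹) := mul_le_mul' le_sup_left le_sup_right
  rw [sq]
  simpa using h1

lemma latHom_of_pos {A : Type} [Group A] [Lattice A] [MulLeftMono A] [MulRightMono A]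
    (F : A →* G) (h : ∀ a, F (a ⊔ 1) = F a ⊔ 1) : LatHom F := by
  have hs : ∀ a b, F (a ⊔ b) = F a ⊔ F b := by
    intro a b
    have h1 : a ⊔ b = (a * b⁻¹ ⊔ 1) * b := by rw [sup_mul]; simp
    have h2 : F a ⊔ F b = (F a * (F b)⁻¹ ⊔ 1) * F b := by rw [sup_mul]; simp
    rw [h1, h2, map_mul, h, map_mul, map_inv]
  refine ⟨hs, ?_⟩
  intro a b
  have h1 : a ⊓ b = (a⁻¹ ⊔ b⁻¹)⁻¹ := by rw [inv_sup]; simp
  have h2 : F a ⊓ F b = ((F a)⁻¹ ⊔ (F b)⁻¹)⁻¹ := by rw [inv_sup]; simp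
  rw [h1, h2, map_inv, hs, map_inv, map_inv]

/-- the homomorphism `(i,j) ↦ x^i y^j` -/
def F2 (x y : G) (h : x * y = y * x) : Multiplicative ℤ × Multiplicative ℤ →* G where
  toFun p := x ^ (Multiplicative.toAdd p.1) * y ^ (Multiplicative.toAdd p.2)
  map_one' := by simp
  map_mul' := by
    rintro ⟨i, j⟩ ⟨i', j'⟩
    simp only [Prod.mk_mul_mk, toAdd_mul, zpow_add]
    have hc : Commute x y := h
    have h1 := (hc.zpow_zpow (Multiplicative.toAdd i') (Multiplicative.toAdd j)).eq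
    calc x ^ (Multiplicative.toAdd i) * x ^ (Multiplicative.toAdd i') *
          (y ^ (Multiplicative.toAdd j) * y ^ (Multiplicative.toAdd j'))
        = x ^ (Multiplicative.toAdd i) * (x ^ (Multiplicative.toAdd i') *
          y ^ (Multiplicative.toAdd j)) * y ^ (Multiplicative.toAdd j') := by group
      _ = x ^ (Multiplicative.toAdd i) * (y ^ (Multiplicative.toAdd j) *
          x ^ (Multiplicative.toAdd i')) * y ^ (Multiplicative.toAdd j') := by rw [h1]
      _ = _ := by group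

lemma F2_apply (x y : G) (h : x * y = y * x) (i j : Multiplicative ℤ) :
    F2 x y h (i, j) = x ^ (Multiplicative.toAdd i) * y ^ (Multiplicative.toAdd j) := rfl

lemma pow_disj {x y : G} (h : x ⊓ y = 1) (n : ℕ) : x ⊓ y ^ n = 1 := by
  induction n with
  | zero => rw [pow_zero]; exact inf_eq_right.mpr (one_le_of_inf_left h)
  | succ n ih => rw [pow_succ]; exact inf_mul_eq_one ih h

lemma pow_disj' {x y : G} (h : x ⊓ y = 1) (m n : ℕ) : x ^ m ⊓ y ^ n = 1 := by
  have h1 := pow_disj h n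
  rw [inf_comm] at h1 ⊢
  exact pow_disj h1 m

lemma F2_pos {x y : G} (hd : x ⊓ y = 1) (h : x * y = y * x) (a : Multiplicative ℤ × Multiplicative ℤ) :
    F2 x y h (a ⊔ 1) = F2 x y h a ⊔ 1 := by
  obtain ⟨i, j⟩ := a
  obtain ⟨i, rfl⟩ := Multiplicative.ofAdd.surjective i
  obtain ⟨j, rfl⟩ := Multiplicative.ofAdd.surjective j
  -- positive and negative parts
  set p1 : ℕ := i.toNat with hp1
  set n1 : ℕ := (-i).toNat with hn1
  set p2 : ℕ := j.toNat with hp2
  set n2 : ℕ := (-j).toNat with hn2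
  have hx : 1 ≤ x := one_le_of_inf_left hd
  have hy : 1 ≤ y := one_le_of_inf_right hd
  have hc : Commute x y := h
  have e0 : ((Multiplicative.ofAdd i, Multiplicative.ofAdd j) :
      Multiplicative ℤ × Multiplicative ℤ) ⊔ 1 =
      (Multiplicative.ofAdd (p1 : ℤ), Multiplicative.ofAdd (p2 : ℤ)) := by
    rw [Prod.ext_iff]
    constructor
    · change Multiplicative.ofAdd i ⊔ Multiplicative.ofAdd 0 = Multiplicative.ofAdd (p1 : ℤ)
      rw [hp1, Int.toNat_eq_max]; rfl
    · change Multiplicative.ofAdd j ⊔ Multiplicative.ofAdd 0 = Multiplicative.ofAdd (p2 : ℤ)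
      rw [hp2, Int.toNat_eq_max]; rfl
  have e1 : F2 x y h (Multiplicative.ofAdd i, Multiplicative.ofAdd j)
      = (x ^ p1 * y ^ p2) * (x ^ n1 * y ^ n2)⁻¹ := by
    rw [F2_apply, toAdd_ofAdd, toAdd_ofAdd]
    have hi : i = (p1 : ℤ) - (n1 : ℤ) := by omega
    have hj : j = (p2 : ℤ) - (n2 : ℤ) := by omega
    rw [hi, hj, zpow_sub, zpow_sub, zpow_natCast, zpow_natCast, zpow_natCast, zpow_natCast,
      mul_inv_rev]
    have c1 : (x ^ n1)⁻¹ * y ^ p2 = y ^ p2 * (x ^ n1)⁻¹ :=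
      ((hc.pow_pow n1 p2).inv_left).eq
    have c2 : (x ^ n1)⁻¹ * (y ^ n2)⁻¹ = (y ^ n2)⁻¹ * (x ^ n1)⁻¹ :=
      ((hc.pow_pow n1 n2).inv_inv).eq
    calc x ^ p1 * (x ^ n1)⁻¹ * (y ^ p2 * (y ^ n2)⁻¹)
        = x ^ p1 * ((x ^ n1)⁻¹ * y ^ p2) * (y ^ n2)⁻¹ := by simp only [mul_assoc]
      _ = x ^ p1 * (y ^ p2 * (x ^ n1)⁻¹) * (y ^ n2)⁻¹ := by rw [c1]
      _ = x ^ p1 * y ^ p2 * ((x ^ n1)⁻¹ * (y ^ n2)⁻¹) := by simp only [mul_assoc]
      _ = x ^ p1 * y ^ p2 * ((y ^ n2)⁻¹ * (x ^ n1)⁻¹) := by rw [c2]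
  rw [e0, e1, F2_apply, toAdd_ofAdd, toAdd_ofAdd, zpow_natCast, zpow_natCast]
  have hxx : x ^ p1 ⊓ x ^ n1 = 1 := by
    rcases le_total i 0 with hi | hi
    · have : p1 = 0 := by omega
      rw [this, pow_zero]; exact inf_eq_left.mpr (one_le_pow_of_one_le' hx _)
    · have : n1 = 0 := by omega
      rw [this, pow_zero]; exact inf_eq_right.mpr (one_le_pow_of_one_le' hx _)
  have hyy : y ^ p2 ⊓ y ^ n2 = 1 := by
    rcases le_total j 0 with hj | hj
    · have : p2 = 0 := by omega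
      rw [this, pow_zero]; exact inf_eq_left.mpr (one_le_pow_of_one_le' hy _)
    · have : n2 = 0 := by omega
      rw [this, pow_zero]; exact inf_eq_right.mpr (one_le_pow_of_one_le' hy _)
  have hxy1 : x ^ p1 ⊓ (x ^ n1 * y ^ n2) = 1 := inf_mul_eq_one hxx (pow_disj' hd _ _)
  have hxy2 : y ^ p2 ⊓ (x ^ n1 * y ^ n2) = 1 :=
    inf_mul_eq_one (by rw [inf_comm]; exact pow_disj' hd _ _) hyy
  have hdd : (x ^ n1 * y ^ n2) ⊓ (x ^ p1 * y ^ p2) = 1 :=
    inf_mul_eq_one (by rw [inf_comm]; exact hxy1) (by rw [inf_comm]; exact hxy2)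
  set P := x ^ p1 * y ^ p2
  set N := x ^ n1 * y ^ n2
  have h1 : P * N = P ⊔ N := mul_eq_sup_of_disj (by rw [inf_comm]; exact hdd)
  have h2 : P * N⁻¹ ⊔ 1 = (P ⊔ N) * N⁻¹ := by rw [sup_mul]; simp
  rw [h2, ← h1]; simp

lemma F2_latHom {x y : G} (hd : x ⊓ y = 1) (h : x * y = y * x) : LatHom (F2 x y h) :=
  latHom_of_pos _ (F2_pos hd h)

lemma eq_one_of_pow {x : G} (hx : 1 ≤ x) {n : ℕ} (hn : n ≠ 0) (h : x ^ n ≤ 1) : x = 1 := by
  refine le_antisymm ?_ hx
  obtain ⟨m, rfl⟩ := Nat.exists_eq_succ_of_ne_zero hn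
  calc x ≤ x ^ m * x := le_mul_of_one_le_left' (one_le_pow_of_one_le' hx _)
    _ = x ^ (m + 1) := (pow_succ _ _).symm
    _ ≤ 1 := h

lemma F2_inj {x y : G} (hd : x ⊓ y = 1) (h : x * y = y * x) (hx1 : x ≠ 1) (hy1 : y ≠ 1) :
    Injective (F2 x y h) := by
  have hx : 1 ≤ x := one_le_of_inf_left hd
  have hy : 1 ≤ y := one_le_of_inf_right hd
  have hc : Commute x y := h
  have key : ∀ i j : ℤ, x ^ i * y ^ j = 1 → i ≤ 0 ∧ j ≤ 0 := by
    intro i j hij
    have hp := F2_pos hd h (Multiplicative.ofAdd i, Multiplicative.ofAdd j)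
    have e0 : ((Multiplicative.ofAdd i, Multiplicative.ofAdd j) :
        Multiplicative ℤ × Multiplicative ℤ) ⊔ 1 =
        (Multiplicative.ofAdd (i.toNat : ℤ), Multiplicative.ofAdd (j.toNat : ℤ)) := by
      rw [Prod.ext_iff]
      constructor
      · change Multiplicative.ofAdd i ⊔ Multiplicative.ofAdd 0 =
          Multiplicative.ofAdd ((i.toNat : ℕ) : ℤ)
        rw [Int.toNat_eq_max]; rfl
      · change Multiplicative.ofAdd j ⊔ Multiplicative.ofAdd 0 =
          Multiplicative.ofAdd ((j.toNat : ℕ) : ℤ)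
        rw [Int.toNat_eq_max]; rfl
    rw [e0, F2_apply, F2_apply, toAdd_ofAdd, toAdd_ofAdd, toAdd_ofAdd, toAdd_ofAdd, hij,
      zpow_natCast, zpow_natCast, sup_idem] at hp
    have h1 : x ^ i.toNat ≤ 1 := by
      rw [← hp]; exact le_mul_of_one_le_right' (one_le_pow_of_one_le' hy _)
    have h2 : y ^ j.toNat ≤ 1 := by
      rw [← hp]; exact le_mul_of_one_le_left' (one_le_pow_of_one_le' hx _)
    constructor
    · by_contra hcon
      exact hx1 (eq_one_of_pow hx (by omega) h1)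
    · by_contra hcon
      exact hy1 (eq_one_of_pow hy (by omega) h2)
  rw [injective_iff_map_eq_one]
  rintro ⟨i, j⟩ hij
  obtain ⟨i, rfl⟩ := Multiplicative.ofAdd.surjective i
  obtain ⟨j, rfl⟩ := Multiplicative.ofAdd.surjective j
  rw [F2_apply, toAdd_ofAdd, toAdd_ofAdd] at hij
  have h1 := key i j hij
  have h2 : x ^ (-i) * y ^ (-j) = 1 := by
    have e1 : x ^ (-i) * y ^ (-j) = y ^ (-j) * x ^ (-i) := (hc.zpow_zpow (-i) (-j)).eq
    rw [e1, zpow_neg, zpow_neg, ← mul_inv_rev, hij, inv_one]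
  have h3 := key _ _ h2
  have hi : i = 0 := by omega
  have hj : j = 0 := by omega
  rw [hi, hj]; rfl

end pre

section main

variable {V : ∀ (α : Type) [Group α] [Lattice α], Prop} (hV : IsVar V) (hAP : AP V)

include hV hAP

/-- If `V` has the AP then there are no `e > 1`, `m ≥ 1` with `e ⊓ m⁻¹ e m = 1`. -/
lemma no_disj_conj {G : Type} [Group G] [Lattice G] (hG : V G) (e m : G) (hm : 1 ≤ m)
    (hd : e ⊓ (m⁻¹ * e * m) = 1) : e = 1 := by
  have := hV.left hG
  have := hV.right hG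
  by_contra he
  set y := m⁻¹ * e * m with hy
  have hy1 : y ≠ 1 := by
    intro h
    apply he
    have : e = m * y * m⁻¹ := by rw [hy]; group
    rw [this, h]; group
  have hc : e * y = y * e := mul_comm_of_disj hd
  have hGG : V (G × G) := hV.prodQuo hG (MonoidHom.id G) ⟨fun _ _ => rfl, fun _ _ => rfl⟩
    surjective_id
  -- the base of the formation
  let A := (Multiplicative ℤ × Multiplicative ℤ) × Multiplicative ℤ
  let fe : Multiplicative ℤ →* G := (F2 e y hc).comp (MonoidHom.inl _ _)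
  have hfe : ∀ k : ℤ, fe (Multiplicative.ofAdd k) = e ^ k := by
    intro k
    simp [fe, F2_apply]
  have hfe_lat : LatHom fe := by
    refine (F2_latHom hd hc).comp ⟨?_, ?_⟩
    · intro a b; simp
    · intro a b; simp
  have hfe_inj : Injective fe := by
    refine (F2_inj hd hc he hy1).comp ?_
    intro a b hab
    simpa using hab
  -- f (i,j,k) = (e^i y^j, e^k)
  let f : A →* G × G := (F2 e y hc).prodMap fe
  have hf_lat : LatHom f := by
    constructor
    · rintro ⟨a, b⟩ ⟨a', b'⟩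
      exact Prod.ext ((F2_latHom hd hc).1 _ _) (hfe_lat.1 _ _)
    · rintro ⟨a, b⟩ ⟨a', b'⟩
      exact Prod.ext ((F2_latHom hd hc).2 _ _) (hfe_lat.2 _ _)
  have hf_inj : Injective f := (F2_inj hd hc he hy1).prodMap hfe_inj
  -- the swap (i,j,k) ↦ (k,j,i)
  let sw : A →* A :=
    { toFun := fun p => ((p.2, p.1.2), p.1.1)
      map_one' := rfl
      map_mul' := fun _ _ => rfl }
  have hsw_lat : LatHom sw := ⟨fun _ _ => rfl, fun _ _ => rfl⟩
  have hsw_inj : Injective sw := by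
    rintro ⟨⟨a, b⟩, c⟩ ⟨⟨a', b'⟩, c'⟩ h
    have h1 := congrArg (fun q : A => q.1.1) h
    have h2 := congrArg (fun q : A => q.1.2) h
    have h3 := congrArg (fun q : A => q.2) h
    simp only [sw, MonoidHom.coe_mk, OneHom.coe_mk] at h1 h2 h3
    simp [h1, h2, h3]
  let g : A →* G × G := f.comp sw
  have hg_lat : LatHom g := hf_lat.comp hsw_lat
  have hg_inj : Injective g := hf_inj.comp hsw_inj
  have hA : V A := hV.sub' f hf_lat hf_inj hGG
  obtain ⟨D, _, _, hD, h, k, hh, hhi, hk, hki, hhk⟩ :=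
    hAP A (G × G) (G × G) f g hf_lat hf_inj hg_lat hg_inj hA hGG hGG
  have := hV.left hD
  have := hV.right hD
  -- the elements
  let ax : A := ((Multiplicative.ofAdd 1, 1), 1)
  let ay : A := ((1, Multiplicative.ofAdd 1), 1)
  let az : A := ((1, 1), Multiplicative.ofAdd 1)
  have hfx : f ax = (e, 1) := by
    refine Prod.ext ?_ (map_one fe)
    change F2 e y hc (Multiplicative.ofAdd 1, 1) = e
    rw [F2_apply]; simp
  have hfy : f ay = (y, 1) := by
    refine Prod.ext ?_ (map_one fe)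
    change F2 e y hc (1, Multiplicative.ofAdd 1) = y
    rw [F2_apply]; simp
  have hfz : f az = (1, e) := by
    refine Prod.ext (map_one (F2 e y hc)) ?_
    change fe (Multiplicative.ofAdd 1) = e
    rw [hfe 1, zpow_one]
  have hgx : g ax = (1, e) := by
    change f az = (1, e); exact hfz
  have hgy : g ay = (y, 1) := by
    change f ay = (y, 1); exact hfy
  have hgz : g az = (e, 1) := by
    change f ax = (e, 1); exact hfx
  have h1e : 1 ≤ e := one_le_of_inf_left hd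
  -- apply the computation
  have hy' : h (f ay) = 1 := by
    refine no_amalgam (b := h (m, 1)) (c := k (m, 1)) (x := h (f ax)) (y := h (f ay))
      (z := h (f az)) ?_ ?_ ?_ ?_ ?_ ?_ ?_
    · have : h 1 ≤ h (m, 1) := hh.mono (Prod.mk_le_mk.mpr ⟨hm, le_rfl⟩)
      rwa [map_one] at this
    · have : k 1 ≤ k (m, 1) := hk.mono (Prod.mk_le_mk.mpr ⟨hm, le_rfl⟩)
      rwa [map_one] at this
    · rw [← hh.2, hfz]
      have : ((m, 1) : G × G) ⊓ (1, e) = 1 := by
        rw [Prod.mk_inf_mk, inf_eq_right.mpr hm, inf_eq_left.mpr h1e]; rfl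
      rw [this, map_one]
    · rw [hhk, ← hk.2, hgx]
      have : ((m, 1) : G × G) ⊓ (1, e) = 1 := by
        rw [Prod.mk_inf_mk, inf_eq_right.mpr hm, inf_eq_left.mpr h1e]; rfl
      rw [this, map_one]
    · rw [← map_inv, ← map_mul, ← map_mul, hfx, hfy]
      congr 1
      simp [hy]
    · rw [hhk az, hhk ay, ← map_inv, ← map_mul, ← map_mul, hgz, hgy]
      congr 1
      simp [hy]
    · rw [← hh.2, hfx, hfy, Prod.mk_inf_mk, hd, inf_idem]
      exact map_one h
  have : f ay = 1 := hhi (by rw [hy', map_one])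
  rw [hfy] at this
  exact hy1 (congrArg Prod.fst this)

/-- **Step 1.** The members of a variety with the amalgamation property are representable. -/
theorem rep_of_ap {G : Type} [Group G] [Lattice G] (hG : V G) : Rep G := by
  have := hV.left hG
  have := hV.right hG
  intro a b hab x
  set e := a ⊓ (x⁻¹ * b * x) with he
  have ha := one_le_of_inf_left hab
  have hb := one_le_of_inf_right hab
  have h1e : 1 ≤ e := le_inf ha (one_le_conj hb x)
  -- t = x⁻¹
  have h1 : e ⊓ (x * e * x⁻¹) = 1 := by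
    refine inf_eq_one_of_le hab h1e inf_le_left ?_ ?_
    · have := one_le_conj h1e x⁻¹
      rwa [inv_inv] at this
    · have := conj_le_conj (inf_le_right : e ≤ x⁻¹ * b * x) x⁻¹
      rw [inv_inv] at this
      refine this.trans (le_of_eq ?_)
      group
  have h2 : e ⊓ (x⁻¹ * e * x) = 1 := by
    have := conj_disj h1 x
    have e1 : x⁻¹ * (x * e * x⁻¹) * x = e := by group
    rw [e1, inf_comm] at this
    exact this
  set m := x ⊔ x⁻¹ with hm
  have hm1 : 1 ≤ m := one_le_sup_inv x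
  have hle : m⁻¹ * e * m ≤ (x⁻¹ * e * x) * (x * e * x⁻¹) := by
    have hmi : m⁻¹ = x⁻¹ ⊓ x := by rw [hm, inv_sup, inv_inv]
    have e1 : m⁻¹ * e * m = (m⁻¹ * e * x) ⊔ (m⁻¹ * e * x⁻¹) := by
      conv_lhs => rw [hm]
      rw [mul_sup]
    rw [e1]
    have hA : 1 ≤ x⁻¹ * e * x := one_le_conj h1e x
    have hB : 1 ≤ x * e * x⁻¹ := by
      have := one_le_conj h1e x⁻¹
      rwa [inv_inv] at this
    refine sup_le ?_ ?_
    · refine le_trans ?_ (le_mul_of_one_le_right' hB)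
      rw [hmi]
      exact mul_le_mul_left (mul_le_mul_left inf_le_left _) _
    · refine le_trans ?_ (le_mul_of_one_le_left' hA)
      rw [hmi]
      exact mul_le_mul_left (mul_le_mul_left inf_le_right _) _
  have h3 : e ⊓ (m⁻¹ * e * m) = 1 :=
    inf_eq_one_of_le (inf_mul_eq_one h2 h1) h1e le_rfl (one_le_conj h1e m) hle
  exact no_disj_conj hV hAP hG e m hm1 h3

end main

end Pool.Agent.H74
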