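import Pool.Agent.H74.LGHeis

set_option linter.unusedSectionVars false

/-!
# Lifting the first transvection
-/

namespace Pool.Agent.H74

open Function Filter

lemma lexPos4 {p : Fin 4 → ℤ} (hp : LexPos p) :
    0 < p 0 ∨ (p 0 = 0 ∧ 0 < p 1) ∨ (p 0 = 0 ∧ p 1 = 0 ∧ 0 < p 2) ∨
      (p 0 = 0 ∧ p 1 = 0 ∧ p 2 = 0 ∧ 0 < p 3) := by
  obtain ⟨i, h1, h2⟩ := hp
  fin_cases i
  · exact Or.inl h2
  · exact Or.inr (Or.inl ⟨h1 0 (by decide), h2⟩)
  · exact Or.inr (Or.inr (Or.inl ⟨h1 0 (by decide), h1 1 (by decide), h2⟩))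
  · exact Or.inr (Or.inr (Or.inr ⟨h1 0 (by decide), h1 1 (by decide), h1 2 (by decide), h2⟩))

lemma hb_nsmul {n : ℕ} (k : ℕ) (p : Fin n → ℤ) : hb (k • p) = hb p ^ k := rfl

lemma hb_lt {n : ℕ} {p q : Fin n → ℤ} (h : LexPos (q - p)) : hb p < hb q := by
  obtain ⟨i, h1, h2⟩ := h
  refine ⟨i, fun j hj => ?_, ?_⟩
  · have := h1 j hj
    simp only [Pi.sub_apply] at this
    change p j = q j
    linarith
  · simp only [Pi.sub_apply] at h2
    change p i < q i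
    linarith

section total

variable {G : Type} [Group G] [LinearOrder G] [MulLeftMono G] [MulRightMono G]

lemma zpow_lt_of_small {x z : G} (hz : 1 < z) (h : ∀ n : ℕ, z ^ n < x) (m : ℤ) : z ^ m < x := by
  rcases le_total 0 m with hm | hm
  · lift m to ℕ using hm
    rw [zpow_natCast]; exact h m
  · obtain ⟨k, rfl⟩ : ∃ k : ℕ, m = -(k : ℤ) := ⟨m.natAbs, by omega⟩
    have h1 : z ^ (-(k : ℤ)) ≤ 1 := by
      rw [zpow_neg, zpow_natCast]
      exact inv_le_one'.mpr (one_le_pow_of_one_le' hz.le k)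
    have h2 : 1 < x := by simpa using h 0
    exact h1.trans_lt h2

lemma le_zpow {x : G} (hx : 1 < x) {m : ℤ} (hm : 0 < m) : x ≤ x ^ m := by
  have h1 : x ^ m = x * x ^ (m - 1) := by
    rw [← zpow_one_add]; congr 1; ring
  rw [h1]
  have h2 : 1 ≤ x ^ (m - 1) := by
    obtain ⟨k, hk⟩ : ∃ k : ℕ, m - 1 = (k : ℤ) := ⟨(m - 1).natAbs, by omega⟩
    rw [hk, zpow_natCast]
    exact one_le_pow_of_one_le' hx.le k
  exact le_mul_of_one_le_right' h2

/-- `y` not too negative -/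
lemma pos_of_small {x y : G} (hx : 1 < x) (hy : y⁻¹ < x) {m : ℤ} (hm : 0 < m) :
    1 < x ^ m * y := by
  have h1 : y⁻¹ < x ^ m := hy.trans_le (le_zpow hx hm)
  have h2 := mul_lt_mul_left h1 y
  rwa [inv_mul_cancel] at h2

lemma pos_two {x z : G} (hz : 1 < z) (h : ∀ n : ℕ, z ^ n < x) {m : ℤ} (hm : 0 < m) (k : ℤ) :
    1 < x ^ m * z ^ k := by
  have hx : 1 < x := by simpa using h 0
  refine pos_of_small hx ?_ hm
  rw [← zpow_neg]
  exact zpow_lt_of_small hz h _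

lemma pos_three {x z w : G} (hw : 1 < w) (h : ∀ n : ℕ, w ^ n < z) (h' : ∀ n : ℕ, z ^ n < x)
    {m : ℤ} (hm : 0 < m) (k l : ℤ) : 1 < x ^ m * (z ^ k * w ^ l) := by
  have hx : 1 < x := by simpa using h' 0
  have hz : 1 < z := by simpa using h 0
  refine pos_of_small hx ?_ hm
  -- z^(k-1) < z^k w^l
  have h1 : 1 < z ^ (1 : ℤ) * w ^ l := pos_two hw h one_pos l
  have h2 := mul_lt_mul_right h1 (z ^ (k - 1))
  rw [mul_one, ← mul_assoc, ← zpow_add, sub_add_cancel] at h2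
  have h3 : (z ^ k * w ^ l)⁻¹ < (z ^ (k - 1))⁻¹ := inv_lt_inv_iff.mpr h2
  refine h3.trans ?_
  rw [← zpow_neg]
  exact zpow_lt_of_small hz h' _

lemma comm_split {x z : G} (h : Commute x z) (a b c d : ℤ) :
    x ^ (a + b) * z ^ (c + d) = (x ^ a * z ^ c) * (x ^ b * z ^ d) := by
  rw [zpow_add, zpow_add]
  have h1 : x ^ b * z ^ c = z ^ c * x ^ b := h.zpow_zpow b c
  calc x ^ a * x ^ b * (z ^ c * z ^ d) = x ^ a * (x ^ b * z ^ c) * z ^ d := by
        simp only [mul_assoc]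
    _ = x ^ a * (z ^ c * x ^ b) * z ^ d := by rw [h1]
    _ = (x ^ a * z ^ c) * (x ^ b * z ^ d) := by simp only [mul_assoc]

lemma comm_split3 {x z w : G} (h : Commute x z) (h' : Commute x w) (h'' : Commute z w)
    (a b c d e f : ℤ) :
    x ^ (a + b) * (z ^ (c + d) * w ^ (e + f)) =
      (x ^ a * (z ^ c * w ^ e)) * (x ^ b * (z ^ d * w ^ f)) := by
  rw [comm_split h'', zpow_add]
  have h1 : x ^ b * (z ^ c * w ^ e) = (z ^ c * w ^ e) * x ^ b :=
    ((h.zpow_zpow b c).mul_right (h'.zpow_zpow b e))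
  calc x ^ a * x ^ b * (z ^ c * w ^ e * (z ^ d * w ^ f))
      = x ^ a * (x ^ b * (z ^ c * w ^ e)) * (z ^ d * w ^ f) := by
        simp only [mul_assoc]
    _ = x ^ a * ((z ^ c * w ^ e) * x ^ b) * (z ^ d * w ^ f) := by rw [h1]
    _ = (x ^ a * (z ^ c * w ^ e)) * (x ^ b * (z ^ d * w ^ f)) := by simp only [mul_assoc]

/-- conjugation by powers of `a` -/
lemma conj_zpow_heis {x a z : G} (h : a⁻¹ * x * a = x * z) (hxz : Commute x z)
    (haz : Commute a z) (j m : ℤ) : (a ^ j)⁻¹ * x ^ m * a ^ j = x ^ m * z ^ (j * m) := by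
  have h1 : x * a * x⁻¹ = a * z := by
    have : x * a = a * (x * z) := by rw [← h]; group
    rw [this, hxz.eq]; group
  have h2 : x * a ^ j * x⁻¹ = a ^ j * z ^ j := by
    rw [← conj_zpow, h1, haz.mul_zpow]
  have h3 : (a ^ j)⁻¹ * x * a ^ j = x * z ^ j := by
    have : x * a ^ j = a ^ j * z ^ j * x := by rw [← h2]; group
    rw [mul_assoc, this, (hxz.zpow_right j).eq]; group
  have h4 : ((a ^ j)⁻¹ * x * a ^ j) ^ m = (a ^ j)⁻¹ * x ^ m * a ^ j := by
    have := conj_zpow (a := (a ^ j)⁻¹) (b := x) (i := m)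
    rwa [inv_inv] at this
  rw [← h4, h3, (hxz.zpow_right j).mul_zpow, zpow_mul]

end total

section main

variable {V : ∀ (α : Type) [Group α] [Lattice α], Prop} (hV : IsVar V) (hAP : AP V)

include hV

/-- construct liftings in ultraproducts -/
lemma Lam.mkUP {n : ℕ} {G : ℕ → Type} [∀ k, Group (G k)] [∀ k, LinearOrder (G k)]
    [∀ k, MulLeftMono (G k)] [∀ k, MulRightMono (G k)] (hG : ∀ k, V (G k))
    {φ : (Fin n → ℤ) → (Fin n → ℤ)} (hφ : Bijective φ) (F : (Fin n → ℤ) → ∀ k, G k)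
    (hF : ∀ p q k, F (p + q) k = F p k * F q k)
    (hpos : ∀ p, LexPos p → ∃ N, ∀ k, N ≤ k → 1 < F p k) (g : ∀ k, G k)
    (hg : ∀ p k, (g k)⁻¹ * F p k * g k = F (φ p) k) : Lam V n φ := by
  have hF' : ∀ p q, up G (F (p + q)) = up G (F p) * up G (F q) := by
    intro p q
    rw [← map_mul]
    congr 1
    funext k
    exact hF p q k
  have hmono : StrictMono (mkHub (fun p => up G (F p)) hF') := by
    refine hub_strictMono _ (fun p hp => ?_)
    rw [mkHub_apply, up_one_lt]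
    obtain ⟨N, hN⟩ := hpos p hp
    exact hyper_of_large N hN
  refine ⟨hφ, UP G, inferInstance, inferInstance, hV.up hG, mkHub (fun p => up G (F p)) hF',
    latHom_of_mono hmono.monotone, hmono.injective, up G g, ?_⟩
  intro p
  rw [mkHub_apply, mkHub_apply, ← map_inv, ← map_mul, ← map_mul]
  congr 1
  funext k
  exact hg p k

variable {G : Type} [Group G] [LinearOrder G] [MulLeftMono G] [MulRightMono G] (hG : V G)
  {x a z : G} (hz : 1 < z) (hzx : ∀ n : ℕ, z ^ n < x) (h : a⁻¹ * x * a = x * z)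
  (hc : ∀ y, z * y = y * z)

include hG hz hzx h hc

lemma lam_C : Lam V 4 (fun p => ![p 0, p 1, p 2 + p 0, p 3 + p 1]) := by
  have hxz : Commute x z := (hc x).symm
  have haz : Commute a z := (hc a).symm
  refine Lam.mkUP hV (G := fun _ => G) (fun _ => hG) ?_
    (fun p k => x ^ (p 0 * (k : ℤ) + p 1) * z ^ (p 2 * (k : ℤ) + p 3)) ?_ ?_ (fun _ => a) ?_
  · rw [bijective_iff_has_inverse]
    refine ⟨fun p => ![p 0, p 1, p 2 - p 0, p 3 - p 1], fun p => ?_, fun p => ?_⟩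
    · funext i; fin_cases i <;> simp
    · funext i; fin_cases i <;> simp
  · intro p q k
    rw [← comm_split hxz]
    simp only [Pi.add_apply]
    congr 2 <;> ring
  · intro p hp
    rcases lexPos4 hp with h1 | ⟨h0, h1⟩ | ⟨h0, h1, h2⟩ | ⟨h0, h1, h2, h3⟩
    · refine ⟨(p 1).natAbs + 1, fun k hk => pos_two hz hzx ?_ _⟩
      have : (k : ℤ) ≥ (p 1).natAbs + 1 := by exact_mod_cast hk
      have h2 : ((p 1).natAbs : ℤ) = |p 1| := Int.natCast_natAbs _
      have h3 := neg_abs_le (p 1)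
      nlinarith
    · refine ⟨0, fun k _ => pos_two hz hzx ?_ _⟩
      rw [h0, zero_mul, zero_add]; exact h1
    · refine ⟨(p 3).natAbs + 1, fun k hk => ?_⟩
      have : (k : ℤ) ≥ (p 3).natAbs + 1 := by exact_mod_cast hk
      have h3 : ((p 3).natAbs : ℤ) = |p 3| := Int.natCast_natAbs _
      have h4 := neg_abs_le (p 3)
      rw [h0, h1, zero_mul, zero_add, zpow_zero, one_mul]
      exact one_lt_zpow hz (by nlinarith)
    · refine ⟨0, fun k _ => ?_⟩
      rw [h0, h1, h2]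
      simp only [zero_mul, zero_add, zpow_zero, one_mul]
      exact one_lt_zpow hz h3
  · intro p k
    have h1 := conj_zpow_heis h hxz haz 1 (p 0 * (k : ℤ) + p 1)
    rw [zpow_one, one_mul] at h1
    have h2 : ∀ m n : ℤ, a⁻¹ * (x ^ m * z ^ n) * a = (a⁻¹ * x ^ m * a) * z ^ n := by
      intro m n
      have : z ^ n * a = a * z ^ n := (haz.zpow_right n).symm.eq
      calc a⁻¹ * (x ^ m * z ^ n) * a = a⁻¹ * x ^ m * (z ^ n * a) := by simp only [mul_assoc]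
        _ = (a⁻¹ * x ^ m * a) * z ^ n := by rw [this]; simp only [mul_assoc]
    rw [h2, h1, mul_assoc, ← zpow_add]
    have e1 : (![p 0, p 1, p 2 + p 0, p 3 + p 1] : Fin 4 → ℤ) 0 = p 0 := rfl
    have e2 : (![p 0, p 1, p 2 + p 0, p 3 + p 1] : Fin 4 → ℤ) 1 = p 1 := rfl
    have e3 : (![p 0, p 1, p 2 + p 0, p 3 + p 1] : Fin 4 → ℤ) 2 = p 2 + p 0 := rfl
    have e4 : (![p 0, p 1, p 2 + p 0, p 3 + p 1] : Fin 4 → ℤ) 3 = p 3 + p 1 := rfl
    rw [e1, e2, e3, e4]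
    congr 2
    ring

lemma lam_B : Lam V 4 (fun p => ![p 0, p 1, p 2 - p 0, p 3]) := by
  have hxz : Commute x z := (hc x).symm
  have haz : Commute a z := (hc a).symm
  refine Lam.mkUP hV (G := fun _ => G) (fun _ => hG) ?_
    (fun p k => x ^ (p 0) * z ^ (p 1 * (k : ℤ) ^ 2 + p 2 * (k : ℤ) + p 3)) ?_ ?_
    (fun k => a ^ (-(k : ℤ))) ?_
  · rw [bijective_iff_has_inverse]
    refine ⟨fun p => ![p 0, p 1, p 2 + p 0, p 3], fun p => ?_, fun p => ?_⟩
    · funext i; fin_cases i <;> simp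
    · funext i; fin_cases i <;> simp
  · intro p q k
    rw [← comm_split hxz]
    simp only [Pi.add_apply]
    congr 2; ring
  · intro p hp
    rcases lexPos4 hp with h1 | ⟨h0, h1⟩ | ⟨h0, h1, h2⟩ | ⟨h0, h1, h2, h3⟩
    · exact ⟨0, fun k _ => pos_two hz hzx h1 _⟩
    · refine ⟨(p 2).natAbs + (p 3).natAbs + 1, fun k hk => ?_⟩
      have hk' : (k : ℤ) ≥ (p 2).natAbs + (p 3).natAbs + 1 := by exact_mod_cast hk
      have h2 : ((p 2).natAbs : ℤ) = |p 2| := Int.natCast_natAbs _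
      have h3 : ((p 3).natAbs : ℤ) = |p 3| := Int.natCast_natAbs _
      have h4 := neg_abs_le (p 2)
      have h5 := neg_abs_le (p 3)
      have h6 := abs_nonneg (p 2)
      have h7 := abs_nonneg (p 3)
      rw [h0, zpow_zero, one_mul]
      refine one_lt_zpow hz ?_
      rw [h2, h3] at hk'
      have h8 : (1 : ℤ) ≤ k := by linarith
      have h9 : (k : ℤ) ^ 2 ≤ p 1 * (k : ℤ) ^ 2 := by nlinarith [sq_nonneg (k : ℤ)]
      have h10 : -|p 2| * (k : ℤ) ≤ p 2 * (k : ℤ) := by nlinarith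
      nlinarith
    · refine ⟨(p 3).natAbs + 1, fun k hk => ?_⟩
      have : (k : ℤ) ≥ (p 3).natAbs + 1 := by exact_mod_cast hk
      have h3 : ((p 3).natAbs : ℤ) = |p 3| := Int.natCast_natAbs _
      have h4 := neg_abs_le (p 3)
      rw [h0, h1, zero_mul, zero_add, zpow_zero, one_mul]
      exact one_lt_zpow hz (by nlinarith)
    · refine ⟨0, fun k _ => ?_⟩
      rw [h0, h1, h2]
      simp only [zero_mul, zero_add, zpow_zero, one_mul]
      exact one_lt_zpow hz h3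
  · intro p k
    have h1 := conj_zpow_heis h hxz haz (-(k : ℤ)) (p 0)
    have h2 : ∀ m n j : ℤ, (a ^ j)⁻¹ * (x ^ m * z ^ n) * a ^ j
        = ((a ^ j)⁻¹ * x ^ m * a ^ j) * z ^ n := by
      intro m n j
      have : z ^ n * a ^ j = a ^ j * z ^ n := (haz.zpow_zpow j n).symm.eq
      calc (a ^ j)⁻¹ * (x ^ m * z ^ n) * a ^ j = (a ^ j)⁻¹ * x ^ m * (z ^ n * a ^ j) := by
            simp only [mul_assoc]
        _ = ((a ^ j)⁻¹ * x ^ m * a ^ j) * z ^ n := by rw [this]; simp only [mul_assoc]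
    rw [h2, h1, mul_assoc, ← zpow_add]
    have e1 : (![p 0, p 1, p 2 - p 0, p 3] : Fin 4 → ℤ) 0 = p 0 := rfl
    have e2 : (![p 0, p 1, p 2 - p 0, p 3] : Fin 4 → ℤ) 1 = p 1 := rfl
    have e3 : (![p 0, p 1, p 2 - p 0, p 3] : Fin 4 → ℤ) 2 = p 2 - p 0 := rfl
    have e4 : (![p 0, p 1, p 2 - p 0, p 3] : Fin 4 → ℤ) 3 = p 3 := rfl
    rw [e1, e2, e3, e4]
    congr 2
    ring

include hAP

lemma lam_tau : Lam V 4 (fun p => ![p 0, p 1, p 2, p 3 + p 1]) := by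
  have h1 := Lam.comp hV hAP (lam_C hV hG hz hzx h hc) (lam_B hV hG hz hzx h hc)
  have e : (fun p : Fin 4 → ℤ => (![p 0, p 1, p 2 - p 0, p 3] : Fin 4 → ℤ)) ∘
      (fun p : Fin 4 → ℤ => (![p 0, p 1, p 2 + p 0, p 3 + p 1] : Fin 4 → ℤ)) = fun p => ![p 0, p 1, p 2, p 3 + p 1] := by
    funext p i
    fin_cases i <;> simp
  rwa [e] at h1

end main

section main2

variable {V : ∀ (α : Type) [Group α] [Lattice α], Prop} (hV : IsVar V) (hAP : AP V)

include hV hAP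

/-- there is a totally ordered member with elements `X ≫ Z ≫ W > 1` and a transvection `t` -/
theorem exists_xzwt (hna : ∃ (α : Type) (_ : Group α) (_ : Lattice α), V α ∧
    ∃ a b : α, a * b ≠ b * a) :
    ∃ (G : Type) (_ : Group G) (_ : LinearOrder G) (_ : MulLeftMono G) (_ : MulRightMono G),
      V G ∧ ∃ X Z W t : G, 1 < W ∧ (∀ n : ℕ, W ^ n < Z) ∧ (∀ n : ℕ, Z ^ n < X) ∧
        Commute X Z ∧ Commute X W ∧ Commute Z W ∧ Commute t X ∧ Commute t W ∧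
        t⁻¹ * Z * t = Z * W := by
  obtain ⟨G, _, _, _, _, hG, x, a, z, hz, hzx, h, hc⟩ := exists_heis hV hAP hna
  have h1 := lam_tau hV hAP hG hz hzx h hc
  obtain ⟨T, _, _, _, _, hT, ι, hι, g, -, hg, -⟩ :=
    (h1.lam2 hV hAP h1).total hV hAP (by norm_num)
  have hcomm : ∀ p q, Commute (ι (hb p)) (ι (hb q)) := by
    intro p q
    change ι (hb p) * ι (hb q) = ι (hb q) * ι (hb p)
    rw [← map_mul, ← map_mul, mul_comm]
  refine ⟨T, inferInstance, inferInstance, inferInstance, inferInstance, hT,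
    ι (hb ![1, 0, 0, 0]), ι (hb ![0, 1, 0, 0]), ι (hb ![0, 0, 0, 1]), g, ?_, ?_, ?_,
    hcomm _ _, hcomm _ _, hcomm _ _, ?_, ?_, ?_⟩
  · rw [← map_one ι]
    exact hι (one_lt_hb.mpr ⟨3, fun j hj => by fin_cases j <;> simp_all, by simp⟩)
  · intro n
    rw [← map_pow, ← hb_nsmul]
    refine hι (hb_lt ⟨1, fun j hj => ?_, ?_⟩)
    · fin_cases j <;> simp_all
    · simp
  · intro n
    rw [← map_pow, ← hb_nsmul]
    refine hι (hb_lt ⟨0, fun j hj => ?_, ?_⟩)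
    · fin_cases j <;> simp_all
    · simp
  · have h2 := hg ![1, 0, 0, 0]
    have e : (![(![1, 0, 0, 0] : Fin 4 → ℤ) 0, (![1, 0, 0, 0] : Fin 4 → ℤ) 1,
      (![1, 0, 0, 0] : Fin 4 → ℤ) 2, (![1, 0, 0, 0] : Fin 4 → ℤ) 3 +
      (![1, 0, 0, 0] : Fin 4 → ℤ) 1] : Fin 4 → ℤ) = ![1, 0, 0, 0] := by
      funext i; fin_cases i <;> simp
    rw [e] at h2
    change g * ι (hb ![1, 0, 0, 0]) = ι (hb ![1, 0, 0, 0]) * g
    calc g * ι (hb ![1, 0, 0, 0]) = g * (g⁻¹ * ι (hb ![1, 0, 0, 0]) * g) := by rw [h2]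
      _ = ι (hb ![1, 0, 0, 0]) * g := by group
  · have h2 := hg ![0, 0, 0, 1]
    have e : (![(![0, 0, 0, 1] : Fin 4 → ℤ) 0, (![0, 0, 0, 1] : Fin 4 → ℤ) 1,
      (![0, 0, 0, 1] : Fin 4 → ℤ) 2, (![0, 0, 0, 1] : Fin 4 → ℤ) 3 +
      (![0, 0, 0, 1] : Fin 4 → ℤ) 1] : Fin 4 → ℤ) = ![0, 0, 0, 1] := by
      funext i; fin_cases i <;> simp
    rw [e] at h2
    change g * ι (hb ![0, 0, 0, 1]) = ι (hb ![0, 0, 0, 1]) * g
    calc g * ι (hb ![0, 0, 0, 1]) = g * (g⁻¹ * ι (hb ![0, 0, 0, 1]) * g) := by rw [h2]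
      _ = ι (hb ![0, 0, 0, 1]) * g := by group
  · have h2 := hg ![0, 1, 0, 0]
    rw [h2, ← map_mul, ← hb_add]
    congr 2
    funext i; fin_cases i <;> simp

end main2

end Pool.Agent.H74
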