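import Pool.Agent.H74.LGRep

set_option linter.unusedSectionVars false

/-!
# Totally ordered quotients of representable ℓ-groups
-/

namespace Pool.Agent.H74

open Function

section

variable {G : Type} [Group G] [Lattice G] [MulLeftMono G] [MulRightMono G]

/-- normal ideals of the positive cone -/
structure IsIdl (I : Set G) : Prop where
  pos : ∀ a ∈ I, 1 ≤ a
  one : (1 : G) ∈ I
  mul : ∀ a ∈ I, ∀ b ∈ I, a * b ∈ I
  down : ∀ a ∈ I, ∀ b, 1 ≤ b → b ≤ a → b ∈ I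
  conj : ∀ a ∈ I, ∀ x, x⁻¹ * a * x ∈ I

lemma isIdl_polar (hR : Rep G) {M : Set G} (hM : IsIdl M) (a : G) (ha : 1 ≤ a) :
    IsIdl {y : G | 1 ≤ y ∧ y ⊓ a ∈ M} where
  pos y hy := hy.1
  one := ⟨le_rfl, by rw [inf_eq_left.mpr ha]; exact hM.one⟩
  mul := by
    rintro y ⟨hy, hya⟩ z ⟨hz, hza⟩
    refine ⟨one_le_mul hy hz, ?_⟩
    refine hM.down _ (hM.mul _ hya _ hza) _ (le_inf (one_le_mul hy hz) ha) ?_
    rw [inf_comm, inf_comm y, inf_comm z]
    exact inf_mul_le ha hy hz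
  down := by
    rintro y ⟨hy, hya⟩ z hz hzy
    exact ⟨hz, hM.down _ hya _ (le_inf hz ha) (inf_le_inf_right _ hzy)⟩
  conj := by
    rintro y ⟨hy, hya⟩ x
    refine ⟨one_le_conj hy x, ?_⟩
    set m := y ⊓ a with hm
    have hm1 : 1 ≤ m := hM.pos _ hya
    have h1 : (a * m⁻¹) ⊓ (y * m⁻¹) = 1 := by
      rw [← inf_mul, inf_comm a y, ← hm, mul_inv_cancel]
    have h2 := hR _ _ h1 x
    have hy' : 1 ≤ x⁻¹ * (y * m⁻¹) * x := one_le_of_inf_right h2
    have hmx : 1 ≤ x⁻¹ * m * x := one_le_conj hm1 x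
    have e1 : x⁻¹ * y * x = (x⁻¹ * (y * m⁻¹) * x) * (x⁻¹ * m * x) := by group
    have hle1 : a ⊓ (x⁻¹ * y * x) ≤ (a ⊓ (x⁻¹ * (y * m⁻¹) * x)) * (a ⊓ (x⁻¹ * m * x)) := by
      rw [e1]; exact inf_mul_le ha hy' hmx
    have hle2 : a ⊓ (x⁻¹ * (y * m⁻¹) * x) ≤ m := by
      have e2 : a = (a * m⁻¹) * m := by group
      have h3 := inf_mul_le hy' (one_le_of_inf_left h2) hm1
      rw [inf_comm _ (a * m⁻¹), h2, one_mul, ← e2] at h3
      rw [inf_comm]
      exact h3.trans inf_le_right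
    have hle3 : a ⊓ (x⁻¹ * m * x) ≤ x⁻¹ * m * x := inf_le_right
    refine hM.down (m * (x⁻¹ * m * x)) (hM.mul _ hya _ (hM.conj _ hya x)) _
      (le_inf (one_le_conj hy x) ha) ?_
    rw [inf_comm]
    exact hle1.trans (mul_le_mul' hle2 hle3)

lemma exists_max_idl (g : G) (hg1 : g ≠ 1) :
    ∃ M : Set G, IsIdl M ∧ g ∉ M ∧ ∀ I, IsIdl I → M ⊆ I → g ∉ I → I = M := by
  let S : Set (Set G) := {I | IsIdl I ∧ g ∉ I}
  have h0 : ({1} : Set G) ∈ S := by
    refine ⟨⟨?_, rfl, ?_, ?_, ?_⟩, ?_⟩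
    · intro a ha; rw [Set.mem_singleton_iff.mp ha]
    · intro a ha b hb
      rw [Set.mem_singleton_iff] at *
      rw [ha, hb, one_mul]
    · intro a ha b hb hba
      rw [Set.mem_singleton_iff] at *
      exact le_antisymm (hba.trans ha.le) hb
    · intro a ha x
      rw [Set.mem_singleton_iff] at *
      rw [ha]; group
    · exact fun h => hg1 (Set.mem_singleton_iff.mp h)
  obtain ⟨M, _, hMmax⟩ := zorn_subset_nonempty S (by
    intro c hcS hc hcne
    refine ⟨⋃₀ c, ⟨⟨?_, ?_, ?_, ?_, ?_⟩, ?_⟩, fun s hs => Set.subset_sUnion_of_mem hs⟩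
    · rintro a ⟨s, hs, ha⟩; exact (hcS hs).1.pos a ha
    · obtain ⟨s, hs⟩ := hcne
      exact ⟨s, hs, (hcS hs).1.one⟩
    · rintro a ⟨s, hs, ha⟩ b ⟨t, ht, hb⟩
      rcases hc.total hs ht with h | h
      · exact ⟨t, ht, (hcS ht).1.mul a (h ha) b hb⟩
      · exact ⟨s, hs, (hcS hs).1.mul a ha b (h hb)⟩
    · rintro a ⟨s, hs, ha⟩ b hb hba
      exact ⟨s, hs, (hcS hs).1.down a ha b hb hba⟩
    · rintro a ⟨s, hs, ha⟩ x
      exact ⟨s, hs, (hcS hs).1.conj a ha x⟩
    · rintro ⟨s, hs, ha⟩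
      exact (hcS hs).2 ha) {1} h0
  refine ⟨M, hMmax.prop.1, hMmax.prop.2, ?_⟩
  intro I hI hMI hgI
  exact (hMmax.eq_of_subset ⟨hI, hgI⟩ hMI).symm

/-- In a representable ℓ-group every nontrivial element survives in a totally ordered quotient. -/
theorem exists_total_quotient' (hR : Rep G) (g : G) (hg : 1 ≤ g) (hg1 : g ≠ 1) :
    ∃ T : TCone G, T.proj g ≠ 1 := by
  obtain ⟨M, hM, hgM, hmax⟩ := exists_max_idl g hg1
  -- primality
  have hprime : ∀ a b : G, 1 ≤ a → 1 ≤ b → a ⊓ b ∈ M → a ∈ M ∨ b ∈ M := by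
    intro a b ha hb hab
    by_contra hcon
    push Not at hcon
    obtain ⟨haM, hbM⟩ := hcon
    have sub : ∀ c : G, 1 ≤ c → M ⊆ {y : G | 1 ≤ y ∧ y ⊓ c ∈ M} := by
      intro c hc y hy
      exact ⟨hM.pos _ hy, hM.down _ hy _ (le_inf (hM.pos _ hy) hc) inf_le_left⟩
    have hga : g ∈ {y : G | 1 ≤ y ∧ y ⊓ a ∈ M} := by
      by_contra h
      have := hmax _ (isIdl_polar hR hM a ha) (sub a ha) h
      apply hbM
      rw [← this]
      exact ⟨hb, by rw [inf_comm]; exact hab⟩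
    have hgg : g ∈ {y : G | 1 ≤ y ∧ y ⊓ g ∈ M} := by
      by_contra h
      have := hmax _ (isIdl_polar hR hM g hg) (sub g hg) h
      apply haM
      rw [← this]
      exact ⟨ha, by rw [inf_comm]; exact hga.2⟩
    have := hgg.2
    rw [inf_idem] at this
    exact hgM this
  let T : TCone G :=
    { P := fun x => (x⁻¹ ⊔ 1) ∈ M
      one_le := by
        intro x hx
        have : x⁻¹ ⊔ 1 = 1 := sup_eq_right.mpr (by simpa using hx)
        rw [this]; exact hM.one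
      mul := by
        intro x y hx hy
        refine hM.down _ (hM.mul _ hy _ hx) _ le_sup_right ?_
        rw [mul_inv_rev]
        exact sup_le (mul_le_mul' le_sup_left le_sup_left) (one_le_mul le_sup_right le_sup_right)
      conj := by
        intro x c hx
        have h1 := hM.conj _ hx c⁻¹
        rw [conj_sup, inv_inv] at h1
        have e1 : c * x⁻¹ * c⁻¹ = (c * x * c⁻¹)⁻¹ := by group
        have e2 : c * 1 * c⁻¹ = 1 := by group
        rw [e1, e2] at h1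
        exact h1
      total := by
        intro x
        have h1 := hprime (x ⊔ 1) (x⁻¹ ⊔ 1) le_sup_right le_sup_right
          (by rw [pos_inf_neg]; exact hM.one)
        rw [inv_inv]
        exact h1.symm
      inf := by
        intro x hx
        rw [inv_inf, inv_one, sup_assoc, sup_idem]
        exact hx }
  refine ⟨T, ?_⟩
  intro h
  rw [T.mk_eq_one] at h
  have h1 : (g⁻¹⁻¹ ⊔ 1) ∈ M := h.2
  rw [inv_inv, sup_eq_left.mpr hg] at h1
  exact hgM h1

theorem exists_total_quotient (hR : Rep G) (g : G) (hg1 : g ≠ 1) :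
    ∃ T : TCone G, T.proj g ≠ 1 := by
  have h1 : g ⊔ g⁻¹ ≠ 1 := by
    intro h
    apply hg1
    refine le_antisymm (h ▸ le_sup_left) ?_
    have : g⁻¹ ≤ 1 := h ▸ le_sup_right
    simpa using this
  obtain ⟨T, hT⟩ := exists_total_quotient' hR _ (one_le_sup_inv g) h1
  refine ⟨T, fun h => hT ?_⟩
  rw [T.mk_sup, map_inv, h, inv_one, sup_idem]

end

end Pool.Agent.H74
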