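import Pool.Agent.H74.LGTau

set_option linter.unusedSectionVars false

/-!
# Lifting all unitriangular maps
-/

namespace Pool.Agent.H74

open Function Filter Finset

/-- polynomial positivity -/
lemma lead_pos {n : ℕ} (p : Fin n → ℤ) (s : Finset (Fin n)) (j : Fin n) (hj : j ∈ s)
    (h0 : ∀ l ∈ s, l < j → p l = 0) (hpj : 0 < p j) :
    ∃ N : ℕ, ∀ k : ℕ, N ≤ k → 0 < ∑ l ∈ s, p l * (k : ℤ) ^ (n - (l : ℕ)) := by
  set B : ℤ := ∑ l ∈ s, |p l| with hB
  have hB0 : 0 ≤ B := Finset.sum_nonneg (fun _ _ => abs_nonneg _)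
  obtain ⟨m, hm⟩ : ∃ m : ℕ, n - (j : ℕ) = m + 1 := ⟨n - j - 1, by have := j.2; omega⟩
  refine ⟨B.natAbs + 1, fun k hk => ?_⟩
  have hk' : B + 1 ≤ (k : ℤ) := by
    have h2 : ((B.natAbs + 1 : ℕ) : ℤ) ≤ (k : ℤ) := by exact_mod_cast hk
    push_cast at h2
    rw [abs_of_nonneg hB0] at h2
    exact h2
  have hk1 : (1 : ℤ) ≤ k := by linarith
  have hkm : (0 : ℤ) < (k : ℤ) ^ m := by positivity
  have hlow : ∀ l ∈ s, (if l = j then (k : ℤ) ^ (m + 1) else 0) - |p l| * (k : ℤ) ^ m ≤
      p l * (k : ℤ) ^ (n - (l : ℕ)) := by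
    intro l hl
    by_cases hlj : l = j
    · subst hlj
      rw [if_pos rfl, hm]
      have h1 : (k : ℤ) ^ (m + 1) ≤ p l * (k : ℤ) ^ (m + 1) :=
        le_mul_of_one_le_left (by positivity) (by omega)
      have h2 : 0 ≤ |p l| * (k : ℤ) ^ m := by positivity
      linarith
    · rw [if_neg hlj, zero_sub]
      rcases lt_or_gt_of_ne hlj with h | h
      · rw [h0 l hl h]; simp
      · have h3 : n - (l : ℕ) ≤ m := by
          have : (j : ℕ) < (l : ℕ) := h
          omega
        have h4 : (k : ℤ) ^ (n - (l : ℕ)) ≤ (k : ℤ) ^ m := pow_le_pow_right₀ hk1 h3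
        have h5 : -|p l| ≤ p l := neg_abs_le _
        have h6 : (0 : ℤ) ≤ (k : ℤ) ^ (n - (l : ℕ)) := by positivity
        have h7 : |p l| * (k : ℤ) ^ (n - (l : ℕ)) ≤ |p l| * (k : ℤ) ^ m :=
          mul_le_mul_of_nonneg_left h4 (abs_nonneg _)
        have h8 : -|p l| * (k : ℤ) ^ (n - (l : ℕ)) ≤ p l * (k : ℤ) ^ (n - (l : ℕ)) :=
          mul_le_mul_of_nonneg_right h5 h6
        linarith
  refine lt_of_lt_of_le ?_ (Finset.sum_le_sum hlow)
  rw [Finset.sum_sub_distrib, Finset.sum_ite_eq' s j, if_pos hj, ← Finset.sum_mul, ← hB, pow_succ]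
  nlinarith

section main

variable {V : ∀ (α : Type) [Group α] [Lattice α], Prop} (hV : IsVar V) (hAP : AP V)

include hV

lemma lam_trans {T : Type} [Group T] [LinearOrder T] [MulLeftMono T] [MulRightMono T]
    (hT : V T) {X Z W t : T} (hW : 1 < W) (hWZ : ∀ n : ℕ, W ^ n < Z) (hZX : ∀ n : ℕ, Z ^ n < X)
    (cXZ : Commute X Z) (cXW : Commute X W) (cZW : Commute Z W) (ctX : Commute t X)
    (ctW : Commute t W) (ht : t⁻¹ * Z * t = Z * W) {n : ℕ} (i : Fin n) (ε : Fin n → ℤ)
    (hε : ∀ l, l ≤ i → ε l = 0) : Lam V n (fun p => p + p i • ε) := by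
  have hZ1 : 1 < Z := by simpa using hWZ 0
  set α : (Fin n → ℤ) → ℕ → ℤ := fun p k =>
    ∑ l ∈ univ.filter (fun l => l < i), p l * (k : ℤ) ^ (n - (l : ℕ)) with hα
  set γ : (Fin n → ℤ) → ℕ → ℤ := fun p k =>
    ∑ l ∈ univ.filter (fun l => i < l), p l * (k : ℤ) ^ (n - (l : ℕ)) with hγ
  have hαa : ∀ p q k, α (p + q) k = α p k + α q k := by
    intro p q k
    simp only [hα, Pi.add_apply, add_mul, Finset.sum_add_distrib]
  have hγa : ∀ p q k, γ (p + q) k = γ p k + γ q k := by
    intro p q k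
    simp only [hγ, Pi.add_apply, add_mul, Finset.sum_add_distrib]
  have hγm : ∀ (c : ℤ) p k, γ (c • p) k = c * γ p k := by
    intro c p k
    simp only [hγ, Pi.smul_apply, smul_eq_mul, Finset.mul_sum, mul_assoc]
  have hαε : ∀ (c : ℤ) k, α (c • ε) k = 0 := by
    intro c k
    refine Finset.sum_eq_zero (fun l hl => ?_)
    rw [Finset.mem_filter] at hl
    simp [hε l hl.2.le]
  refine Lam.mkUP hV (G := fun _ => T) (fun _ => hT) ?_
    (fun p k => X ^ α p k * (Z ^ (p i) * W ^ γ p k)) ?_ ?_ (fun k => t ^ γ ε k) ?_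
  · rw [bijective_iff_has_inverse]
    refine ⟨fun p => p - p i • ε, fun p => ?_, fun p => ?_⟩
    · have : (p + p i • ε) i = p i := by simp [hε i le_rfl]
      simp only [this]
      simp
    · have : (p - p i • ε) i = p i := by simp [hε i le_rfl]
      simp only [this]
      simp
  · intro p q k
    simp only [hαa, hγa, Pi.add_apply]
    exact comm_split3 cXZ cXW cZW _ _ _ _ _ _
  · intro p hp
    obtain ⟨j, h1, h2⟩ := hp
    rcases lt_trichotomy j i with h | h | h
    · obtain ⟨N, hN⟩ := lead_pos p (univ.filter (fun l => l < i)) j (by simp [h])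
        (fun l _ hl => h1 l hl) h2
      exact ⟨N, fun k hk => pos_three hW hWZ hZX (hN k hk) _ _⟩
    · refine ⟨0, fun k _ => ?_⟩
      have h0 : α p k = 0 := by
        refine Finset.sum_eq_zero (fun l hl => ?_)
        rw [Finset.mem_filter] at hl
        rw [h1 l (h ▸ hl.2)]; simp
      rw [h0, zpow_zero, one_mul]
      exact pos_two hW hWZ (h ▸ h2) _
    · obtain ⟨N, hN⟩ := lead_pos p (univ.filter (fun l => i < l)) j (by simp [h])
        (fun l _ hl => h1 l hl) h2
      refine ⟨N, fun k hk => ?_⟩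
      have h0 : α p k = 0 := by
        refine Finset.sum_eq_zero (fun l hl => ?_)
        rw [Finset.mem_filter] at hl
        rw [h1 l (hl.2.trans h)]; simp
      rw [h0, h1 i h, zpow_zero, one_mul, zpow_zero, one_mul]
      exact one_lt_zpow hW (hN k hk)
  · intro p k
    have hp : (p + p i • ε) i = p i := by simp [hε i le_rfl]
    simp only [hαa, hγa, hαε, hγm, add_zero]
    rw [hp]
    set j := γ ε k with hj
    have c1 : (t ^ j)⁻¹ * X ^ α p k = X ^ α p k * (t ^ j)⁻¹ :=
      ((ctX.zpow_zpow j (α p k)).inv_left).eq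
    have c2 : W ^ γ p k * t ^ j = t ^ j * W ^ γ p k := ((ctW.zpow_zpow j (γ p k)).symm).eq
    have c3 := conj_zpow_heis ht cZW ctW j (p i)
    calc (t ^ j)⁻¹ * (X ^ α p k * (Z ^ p i * W ^ γ p k)) * t ^ j
        = ((t ^ j)⁻¹ * X ^ α p k) * Z ^ p i * (W ^ γ p k * t ^ j) := by simp only [mul_assoc]
      _ = X ^ α p k * ((t ^ j)⁻¹ * Z ^ p i * t ^ j) * W ^ γ p k := by
          rw [c1, c2]; simp only [mul_assoc]
      _ = X ^ α p k * (Z ^ p i * (W ^ (j * p i) * W ^ γ p k)) := by
          rw [c3]; simp only [mul_assoc]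
      _ = X ^ α p k * (Z ^ p i * W ^ (γ p k + p i * j)) := by
          rw [← zpow_add]
          congr 3
          ring

include hAP

/-- **Step 4.** All unitriangular maps are liftable. -/
theorem lam_tri (hna : ∃ (α : Type) (_ : Group α) (_ : Lattice α), V α ∧
    ∃ a b : α, a * b ≠ b * a) {n : ℕ} (hn : 0 < n) (ε : Fin n → Fin n → ℤ)
    (hε : ∀ i l, l ≤ i → ε i l = 0) : Lam V n (fun p => p + ∑ i, p i • ε i) := by
  obtain ⟨T, _, _, _, _, hT, X, Z, W, t, hW, hWZ, hZX, cXZ, cXW, cZW, ctX, ctW, ht⟩ :=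
    exists_xzwt hV hAP hna
  have htr : ∀ (i : Fin n) (ε : Fin n → ℤ), (∀ l, l ≤ i → ε l = 0) →
      Lam V n (fun p => p + p i • ε) := fun i ε hε =>
    lam_trans hV hT hW hWZ hZX cXZ cXW cZW ctX ctW ht i ε hε
  have key : ∀ m : ℕ, m ≤ n →
      Lam V n (fun p => p + ∑ i ∈ univ.filter (fun i : Fin n => (i : ℕ) < m), p i • ε i) := by
    intro m
    induction m with
    | zero =>
      intro _
      have h1 := htr ⟨0, hn⟩ 0 (fun _ _ => rfl)
      have e : (fun p : Fin n → ℤ => p + ∑ i ∈ univ.filter (fun i : Fin n => (i : ℕ) < 0),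
          p i • ε i) = fun p => p + p ⟨0, hn⟩ • (0 : Fin n → ℤ) := by
        funext p
        simp
      rw [e]
      exact h1
    | succ m ih =>
      intro hm
      let i : Fin n := ⟨m, hm⟩
      have h1 := Lam.comp hV hAP (htr i (ε i) (hε i)) (ih (by omega))
      have e : (fun p : Fin n → ℤ => p + ∑ i ∈ univ.filter (fun i : Fin n => (i : ℕ) < m + 1),
          p i • ε i) = (fun p : Fin n → ℤ => p + ∑ i ∈ univ.filter (fun i : Fin n => (i : ℕ) < m),
          p i • ε i) ∘ (fun p => p + p i • ε i) := by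
        funext p
        simp only [Function.comp]
        have e1 : univ.filter (fun i : Fin n => (i : ℕ) < m + 1)
            = insert i (univ.filter (fun i : Fin n => (i : ℕ) < m)) := by
          ext l
          simp only [Finset.mem_filter, Finset.mem_univ, true_and, Finset.mem_insert, Fin.ext_iff, i]
          omega
        have e2 : i ∉ univ.filter (fun i : Fin n => (i : ℕ) < m) := by simp [i]
        rw [e1, Finset.sum_insert e2, ← add_assoc]
        congr 1
        refine Finset.sum_congr rfl (fun l hl => ?_)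
        rw [Finset.mem_filter] at hl
        have h2 : ε i l = 0 := hε i l (by
          rw [Fin.le_def]; exact hl.2.le)
        simp [h2]
      rw [e]
      exact h1
  have h1 := key n le_rfl
  have e : univ.filter (fun i : Fin n => (i : ℕ) < n) = univ := by
    ext l; simp
  rw [e] at h1
  exact h1

end main

end Pool.Agent.H74
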