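import Pool.Agent.H74.LGFinal

set_option linter.unusedSectionVars false

/-!
# The vectors used in the construction of `D_L`
-/

namespace Pool.Agent.H74

open Function Finset

/-- vectors with `2 d + 1` coordinates -/
abbrev Vec (d : ℕ) : Type := Fin (2 * d + 1) → ℤ

/-- `ε` vectors for `C` -/
def epsC (d : ℕ) (i l : Fin (2 * d + 1)) : ℤ :=
  if (l : ℕ) = i + 1 ∧ (l : ℕ) < 2 * d then 1 else 0

/-- the parity function -/
def ph (k : ℕ) : ℤ := ((k % 2 : ℕ) : ℤ)

/-- its iterated differences at zero -/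
def dl (i : ℕ) : ℤ := (fwdDiff 1)^[i] ph 0

/-- the functional -/
def tt (d : ℕ) (i : ℕ) : ℤ :=
  if i < d then dl i else if i < 2 * d then -dl (i - d) else 0

/-- `ε` vectors for `S` -/
def epsS (d : ℕ) (i l : Fin (2 * d + 1)) : ℤ :=
  if (l : ℕ) = 2 * d ∧ (i : ℕ) < 2 * d then tt d i else 0

lemma epsC_tri (d : ℕ) (i l : Fin (2 * d + 1)) (h : l ≤ i) : epsC d i l = 0 := by
  rw [epsC, if_neg]
  rintro ⟨h1, -⟩
  rw [Fin.le_def] at h
  omega

lemma epsS_tri (d : ℕ) (i l : Fin (2 * d + 1)) (h : l ≤ i) : epsS d i l = 0 := by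
  rw [epsS, if_neg]
  rintro ⟨h1, h2⟩
  rw [Fin.le_def] at h
  omega

/-- the map `C` -/
def CC (d : ℕ) (p : Vec d) : Vec d := p + ∑ i, p i • epsC d i

/-- the map `S` -/
def SS (d : ℕ) (p : Vec d) : Vec d := p + ∑ i, p i • epsS d i

/-- the functional `θ` -/
def theta (d : ℕ) (p : Vec d) : ℤ := ∑ i : Fin (2 * d + 1), p i * tt d i

/-- the last unit vector -/
def eu (d : ℕ) : Vec d := fun l => if (l : ℕ) = 2 * d then 1 else 0

/-- the first unit vector -/
def e0 (d : ℕ) : Vec d := fun l => if (l : ℕ) = 0 ∧ (l : ℕ) < 2 * d then 1 else 0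

/-- the shift by `d` -/
def sg (d : ℕ) (p : Vec d) : Vec d := fun l =>
  if h : d ≤ (l : ℕ) ∧ (l : ℕ) < 2 * d then p ⟨(l : ℕ) - d, by omega⟩ else 0

lemma CC_apply (d : ℕ) (p : Vec d) (l : Fin (2 * d + 1)) :
    CC d p l = p l + if h : 0 < (l : ℕ) ∧ (l : ℕ) < 2 * d then p ⟨(l : ℕ) - 1, by omega⟩ else 0 := by
  rw [CC, Pi.add_apply, Finset.sum_apply]
  congr 1
  split_ifs with h
  · rw [Finset.sum_eq_single (⟨(l : ℕ) - 1, by omega⟩ : Fin (2 * d + 1))]
    · rw [Pi.smul_apply, epsC, if_pos]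
      · simp
      · refine ⟨?_, h.2⟩
        change (l : ℕ) = (l : ℕ) - 1 + 1
        omega
    · intro b _ hb
      rw [Pi.smul_apply, epsC, if_neg]
      · simp
      · rintro ⟨h1, -⟩
        apply hb
        apply Fin.ext
        change (b : ℕ) = (l : ℕ) - 1
        omega
    · intro h1; exact absurd (Finset.mem_univ _) h1
  · refine Finset.sum_eq_zero (fun i _ => ?_)
    rw [Pi.smul_apply, epsC, if_neg]
    · simp
    · rintro ⟨h1, h2⟩
      exact h ⟨by omega, h2⟩

lemma SS_eq (d : ℕ) (p : Vec d) : SS d p = p + theta d p • eu d := by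
  rw [SS]
  congr 1
  funext l
  rw [Finset.sum_apply, Pi.smul_apply, eu]
  by_cases h : (l : ℕ) = 2 * d
  · rw [if_pos h, theta, smul_eq_mul, mul_one]
    refine Finset.sum_congr rfl (fun i _ => ?_)
    rw [Pi.smul_apply, epsS, smul_eq_mul]
    by_cases h2 : (i : ℕ) < 2 * d
    · rw [if_pos ⟨h, h2⟩]
    · rw [if_neg (fun h3 => h2 h3.2), tt, if_neg (by omega), if_neg h2]
  · rw [if_neg h, smul_zero]
    refine Finset.sum_eq_zero (fun i _ => ?_)
    rw [Pi.smul_apply, epsS, if_neg (fun h3 => h h3.1), smul_zero]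

lemma CC_add (d : ℕ) (p q : Vec d) : CC d (p + q) = CC d p + CC d q := by
  simp only [CC, Pi.add_apply, add_smul, Finset.sum_add_distrib]
  abel

lemma theta_add (d : ℕ) (p q : Vec d) : theta d (p + q) = theta d p + theta d q := by
  simp only [theta, Pi.add_apply, add_mul, Finset.sum_add_distrib]

lemma sg_add (d : ℕ) (p q : Vec d) : sg d (p + q) = sg d p + sg d q := by
  funext l
  simp only [sg, Pi.add_apply]
  split_ifs <;> simp

lemma sg_zero (d : ℕ) : sg d 0 = 0 := by
  funext l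
  simp [sg]

lemma sg_CC (d : ℕ) (p : Vec d) : sg d (CC d p) = CC d (sg d p) := by
  funext l
  rw [CC_apply]
  simp only [sg, CC_apply]
  by_cases h : d ≤ (l : ℕ) ∧ (l : ℕ) < 2 * d
  · rw [dif_pos h, dif_pos h]
    congr 1
    by_cases h2 : (l : ℕ) = d
    · rw [dif_neg (by omega)]
      split_ifs with h3 h4
      · omega
      · rfl
      · rfl
    · rw [dif_pos (by omega), dif_pos (by omega), dif_pos (by omega)]
      congr 1
      apply Fin.ext
      change (l : ℕ) - d - 1 = (l : ℕ) - 1 - d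
      omega
  · rw [dif_neg h, dif_neg h]
    split_ifs with h3 h4
    · omega
    · rfl
    · rfl

lemma CC_eu (d : ℕ) : CC d (eu d) = eu d := by
  funext l
  rw [CC_apply]
  simp only [eu]
  split_ifs <;> (simp_all; try omega)

lemma CC_iter (d k : ℕ) : (CC d)^[k] (e0 d) =
    fun l : Fin (2 * d + 1) => if (l : ℕ) < 2 * d then (k.choose l : ℤ) else 0 := by
  induction k with
  | zero =>
    funext l
    simp only [Function.iterate_zero, id_eq, e0]
    rcases Nat.eq_zero_or_pos (l : ℕ) with h | h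
    · rw [h]; simp
    · rw [if_neg (by omega)]
      split_ifs
      · rw [Nat.choose_eq_zero_of_lt h]; rfl
      · rfl
  | succ k ih =>
    rw [Function.iterate_succ_apply', ih]
    funext l
    rw [CC_apply]
    by_cases h : (l : ℕ) < 2 * d
    · rw [if_pos h, if_pos h]
      rcases Nat.eq_zero_or_pos (l : ℕ) with h0 | h0
      · rw [dif_neg (by omega), h0]; simp
      · rw [dif_pos ⟨h0, h⟩, if_pos (by change (l : ℕ) - 1 < 2 * d; omega)]
        change (k.choose l : ℤ) + (k.choose ((l : ℕ) - 1) : ℤ) = _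
        obtain ⟨m, hm⟩ : ∃ m, (l : ℕ) = m + 1 := ⟨(l : ℕ) - 1, by omega⟩
        rw [hm, Nat.add_sub_cancel, Nat.choose_succ_succ]
        push_cast
        ring
    · rw [if_neg h, if_neg h, dif_neg (by omega), zero_add]

lemma newton (k : ℕ) : ∑ i ∈ range (k + 1), (k.choose i : ℤ) * dl i = ph k := by
  have := shift_eq_sum_fwdDiff_iter 1 ph k 0
  simp only [nsmul_eq_mul, mul_one, zero_add, Nat.cast_id] at this
  rw [this]
  rfl

lemma theta_iter (d k : ℕ) (hk : k < d) : theta d ((CC d)^[k] (e0 d)) = ph k := by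
  rw [CC_iter, theta, ← newton k]
  rw [Fin.sum_univ_eq_sum_range (fun i => (if i < 2 * d then (k.choose i : ℤ) else 0) * tt d i)
    (2 * d + 1)]
  symm
  apply Finset.sum_subset_zero_on_sdiff (Finset.range_subset_range.mpr (by omega))
  · intro i hi
    rw [Finset.mem_sdiff, Finset.mem_range, Finset.mem_range] at hi
    rw [Nat.choose_eq_zero_of_lt (by omega)]
    simp
  · intro i hi
    rw [Finset.mem_range] at hi
    rw [if_pos (by omega), tt, if_pos (by omega)]

lemma theta_sg_iter (d k : ℕ) (hk : k < d) : theta d (sg d ((CC d)^[k] (e0 d))) = -ph k := by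
  rw [CC_iter, theta, ← newton k, ← Finset.sum_neg_distrib]
  have e1 : ∀ i : Fin (2 * d + 1), sg d (fun l : Fin (2 * d + 1) => if (l : ℕ) < 2 * d then (k.choose l : ℤ) else 0) i
      * tt d i = (if d ≤ (i : ℕ) ∧ (i : ℕ) < 2 * d then (k.choose ((i : ℕ) - d) : ℤ) else 0)
        * tt d i := by
    intro i
    congr 1
    by_cases h : d ≤ (i : ℕ) ∧ (i : ℕ) < 2 * d
    · rw [sg, dif_pos h, if_pos h, if_pos (show (i : ℕ) - d < 2 * d by omega)]
    · rw [sg, dif_neg h, if_neg h]
  rw [Finset.sum_congr rfl (fun i _ => e1 i)]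
  rw [Fin.sum_univ_eq_sum_range (fun i => (if d ≤ i ∧ i < 2 * d then
    (k.choose (i - d) : ℤ) else 0) * tt d i) (2 * d + 1)]
  symm
  refine Finset.sum_of_injOn (fun i => i + d) ?_ ?_ ?_ ?_
  · intro a _ b _ h
    simpa using h
  · intro a ha
    simp only [Finset.coe_range, Set.mem_Iio] at ha ⊢
    omega
  · intro i _ hi
    by_cases h : d ≤ i ∧ i < 2 * d
    · rw [if_pos h]
      have : k < i - d := by
        by_contra hcon
        apply hi
        simp only [Finset.coe_range, Set.mem_image, Set.mem_Iio]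
        exact ⟨i - d, by omega, by omega⟩
      rw [Nat.choose_eq_zero_of_lt this]
      simp
    · rw [if_neg h, zero_mul]
  · intro i hi
    rw [Finset.mem_range] at hi
    have h1 : i + d - d = i := by omega
    rw [if_pos (by omega), h1, tt, if_neg (by omega), if_pos (by omega), h1]
    ring

/-- domination -/
lemma lexPos_sg {d : ℕ} (hd : 0 < d) {p : Vec d} (hp : LexPos p) (m : ℤ) :
    LexPos (p - m • sg d p) := by
  obtain ⟨j, h1, h2⟩ := hp
  have key : ∀ i, i ≤ j → sg d p i = 0 := by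
    intro i hi
    rw [sg]
    split_ifs with h
    · apply h1
      rw [Fin.lt_def]
      rw [Fin.le_def] at hi
      change (i : ℕ) - d < j
      omega
    · rfl
  refine ⟨j, fun i hi => ?_, ?_⟩
  · simp [key i hi.le, h1 i hi]
  · simp [key j le_rfl, h2]

end Pool.Agent.H74
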