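import Pool.Agent.H74.LGWeak

set_option linter.unusedSectionVars false

/-!
# Totally ordered members of a variety with AP are weakly abelian
-/

namespace Pool.Agent.H74

open Function Filter

section growth

variable {G : Type} [Group G] [LinearOrder G] [MulLeftMono G] [MulRightMono G]

lemma pow_mul_comm_le {x g : G} (h : x * g ≤ g * x) (n : ℕ) : x ^ n * g ≤ g * x ^ n := by
  induction n with
  | zero => simp
  | succ n ih =>
    calc x ^ (n + 1) * g = x ^ n * (x * g) := by rw [pow_succ, mul_assoc]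
      _ ≤ x ^ n * (g * x) := mul_le_mul_right h _
      _ = x ^ n * g * x := by rw [mul_assoc]
      _ ≤ g * x ^ n * x := mul_le_mul_left ih _
      _ = g * x ^ (n + 1) := by rw [pow_succ, mul_assoc]

lemma mul_pow_comm_le {x g : G} (h : g * x ≤ x * g) (n : ℕ) : g * x ^ n ≤ x ^ n * g := by
  induction n with
  | zero => simp
  | succ n ih =>
    calc g * x ^ (n + 1) = g * x ^ n * x := by rw [pow_succ, mul_assoc]
      _ ≤ x ^ n * g * x := mul_le_mul_left ih _
      _ = x ^ n * (g * x) := by rw [mul_assoc]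
      _ ≤ x ^ n * (x * g) := mul_le_mul_right h _
      _ = x ^ (n + 1) * g := by rw [pow_succ, mul_assoc]

lemma pow_mul_pow_le {x g : G} (h : x * g ≤ g * x) (n : ℕ) : x ^ n * g ^ n ≤ (x * g) ^ n := by
  induction n with
  | zero => simp
  | succ n ih =>
    calc x ^ (n + 1) * g ^ (n + 1) = x * (x ^ n * g) * g ^ n := by
          rw [pow_succ' x, pow_succ' g]; simp only [mul_assoc]
      _ ≤ x * (g * x ^ n) * g ^ n := mul_le_mul_left (mul_le_mul_right (pow_mul_comm_le h n) _) _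
      _ = (x * g) * (x ^ n * g ^ n) := by simp only [mul_assoc]
      _ ≤ (x * g) * (x * g) ^ n := mul_le_mul_right ih _
      _ = (x * g) ^ (n + 1) := by rw [pow_succ']

lemma pow_mul_pow_le' {x g : G} (h : g * x ≤ x * g) (n : ℕ) : g ^ n * x ^ n ≤ (x * g) ^ n := by
  induction n with
  | zero => simp
  | succ n ih =>
    calc g ^ (n + 1) * x ^ (n + 1) = g ^ n * (g * x ^ (n + 1)) := by
          rw [pow_succ g]; simp only [mul_assoc]
      _ ≤ g ^ n * (x ^ (n + 1) * g) := mul_le_mul_right (mul_pow_comm_le h _) _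
      _ = g ^ n * x ^ n * (x * g) := by rw [pow_succ x]; simp only [mul_assoc]
      _ ≤ (x * g) ^ n * (x * g) := mul_le_mul_left ih _
      _ = (x * g) ^ (n + 1) := by rw [pow_succ]

/-- if `g^N ≥ x` then `(x g)^N ≥ x^(N+1)` -/
lemma growth_one {x g : G} {N : ℕ} (h : x ≤ g ^ N) : x ^ (N + 1) ≤ (x * g) ^ N := by
  rcases le_total (x * g) (g * x) with h1 | h1
  · calc x ^ (N + 1) = x ^ N * x := pow_succ _ _
      _ ≤ x ^ N * g ^ N := mul_le_mul_right h _
      _ ≤ (x * g) ^ N := pow_mul_pow_le h1 N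
  · calc x ^ (N + 1) = x * x ^ N := pow_succ' _ _
      _ ≤ g ^ N * x ^ N := mul_le_mul_left h _
      _ ≤ (x * g) ^ N := pow_mul_pow_le' h1 N

lemma growth_iter {x c : G} {N : ℕ} (h : x ^ (N + 1) ≤ (c⁻¹ * x * c) ^ N) (k : ℕ) :
    x ^ ((N + 1) ^ k) ≤ ((c ^ k)⁻¹ * x * c ^ k) ^ (N ^ k) := by
  induction k with
  | zero => simp
  | succ k ih =>
    have h1 : (c⁻¹ * x * c) ^ ((N + 1) ^ k) ≤ ((c ^ (k + 1))⁻¹ * x * c ^ (k + 1)) ^ (N ^ k) := by
      have h2 := conj_le_conj ih c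
      rw [← conj_pow, ← conj_pow] at h2
      have e1 : c⁻¹ * ((c ^ k)⁻¹ * x * c ^ k) * c = (c ^ (k + 1))⁻¹ * x * c ^ (k + 1) := by
        rw [pow_succ, mul_inv_rev]; simp only [mul_assoc]
      rw [e1] at h2
      exact h2
    calc x ^ ((N + 1) ^ (k + 1)) = (x ^ (N + 1)) ^ ((N + 1) ^ k) := by
          rw [← pow_mul]; congr 1; ring
      _ ≤ ((c⁻¹ * x * c) ^ N) ^ ((N + 1) ^ k) := pow_le_pow_left' h _
      _ = ((c⁻¹ * x * c) ^ ((N + 1) ^ k)) ^ N := by rw [← pow_mul, ← pow_mul]; congr 1; ring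
      _ ≤ (((c ^ (k + 1))⁻¹ * x * c ^ (k + 1)) ^ (N ^ k)) ^ N := pow_le_pow_left' h1 _
      _ = ((c ^ (k + 1))⁻¹ * x * c ^ (k + 1)) ^ (N ^ (k + 1)) := by
          rw [← pow_mul]; congr 1

lemma bernoulli_nat (N M : ℕ) (hN : 0 < N) : M * N ^ (M * N) < (N + 1) ^ (M * N) := by
  have h1 : (1 : ℚ) + (M * N : ℕ) * (1 / (N : ℚ)) ≤ (1 + 1 / (N : ℚ)) ^ (M * N) := by
    refine one_add_mul_le_pow ?_ _
    have : (0 : ℚ) ≤ 1 / (N : ℚ) := by positivity
    linarith
  have hNq : (0 : ℚ) < N := by exact_mod_cast hN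
  have h2 : (1 : ℚ) + (M * N : ℕ) * (1 / (N : ℚ)) = 1 + M := by
    push_cast
    field_simp
  rw [h2] at h1
  have h3 : ((1 : ℚ) + 1 / (N : ℚ)) ^ (M * N) * (N : ℚ) ^ (M * N) = ((N : ℚ) + 1) ^ (M * N) := by
    rw [← mul_pow]
    congr 1
    field_simp
  have hp : (0 : ℚ) < (N : ℚ) ^ (M * N) := by positivity
  have h4 : (M : ℚ) * (N : ℚ) ^ (M * N) < ((N : ℚ) + 1) ^ (M * N) := by
    rw [← h3]
    nlinarith
  exact_mod_cast h4

/-- if `(x^c)^N ≥ x^(N+1)` then the conjugates of `x` are unbounded with respect to `x` -/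
lemma growth_unbounded {x c : G} (hx : 1 < x) {N : ℕ} (hN : 0 < N)
    (h : x ^ (N + 1) ≤ (c⁻¹ * x * c) ^ N) (M : ℕ) : ∃ k : ℕ, x ^ M < (c ^ k)⁻¹ * x * c ^ k := by
  refine ⟨M * N, ?_⟩
  by_contra hcon
  rw [not_lt] at hcon
  have h1 := growth_iter h (M * N)
  have h2 : ((c ^ (M * N))⁻¹ * x * c ^ (M * N)) ^ (N ^ (M * N)) ≤ x ^ (M * N ^ (M * N)) := by
    rw [pow_mul x M (N ^ (M * N))]; exact pow_le_pow_left' hcon _
  have h3 := h1.trans h2
  have h4 := pow_lt_pow_right' hx (bernoulli_nat N M hN)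
  exact absurd h3 (not_le.mpr h4)

end growth

section main

variable {V : ∀ (α : Type) [Group α] [Lattice α], Prop} (hV : IsVar V) (hAP : AP V)

include hV

lemma IsVar.up {G : ℕ → Type} [∀ n, Group (G n)] [∀ n, LinearOrder (G n)]
    [∀ n, MulLeftMono (G n)] [∀ n, MulRightMono (G n)] (h : ∀ n, V (G n)) : V (UP G) :=
  hV.quotient (hV.prod ℕ G h) (ucone G)

include hAP

/-- **Step 3.** Totally ordered members are weakly abelian: `[x,c] ≪ x`. -/
theorem wa1 {G : Type} [Group G] [LinearOrder G] [MulLeftMono G] [MulRightMono G]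
    (hG : V G) (x c : G) (hx : 1 < x) (N : ℕ) : (x⁻¹ * (c⁻¹ * x * c)) ^ N < x := by
  by_contra hcon
  rw [not_lt] at hcon
  set g := x⁻¹ * (c⁻¹ * x * c) with hg
  have hN : 0 < N := by
    rcases Nat.eq_zero_or_pos N with h | h
    · rw [h, pow_zero] at hcon
      exact absurd hx (not_lt.mpr hcon)
    · exact h
  have h1 := growth_one hcon
  have e1 : x * g = c⁻¹ * x * c := by rw [hg]; group
  rw [e1] at h1
  choose k hk using growth_unbounded hx hN h1
  -- pass to the ultrapower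
  have hU : V (UP fun _ : ℕ => G) := hV.up (fun _ => hG)
  refine no_big_conj hV hAP hU (up (fun _ => G) (fun _ => x)) (up (fun _ => G) (fun j => c ^ k j))
    ?_ ?_
  · rw [up_one_lt]
    exact Eventually.of_forall (fun _ => hx)
  · intro n
    rw [← map_pow, ← map_inv, ← map_mul, ← map_mul, up_lt]
    refine hyper_of_large n (fun j hj => ?_)
    change x ^ n < (c ^ k j)⁻¹ * x * c ^ k j
    exact (pow_le_pow_right' hx.le hj).trans_lt (hk j)

theorem wa2 {G : Type} [Group G] [LinearOrder G] [MulLeftMono G] [MulRightMono G]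
    (hG : V G) (x c : G) (hx : 1 < x) (N : ℕ) : ((c⁻¹ * x * c)⁻¹ * x) ^ N < x := by
  set y := c⁻¹ * x * c with hy
  have hy1 : 1 < y := by
    have := conj_lt_conj hx c
    simpa using this
  have h1 := wa1 hV hAP hG y c⁻¹ hy1 N
  have e1 : c⁻¹⁻¹ * y * c⁻¹ = x := by rw [hy]; group
  rw [e1] at h1
  rcases le_total y x with h | h
  · exact h1.trans_le h
  · have h2 : y⁻¹ * x ≤ 1 := by
      have := mul_le_mul_right h y⁻¹
      simpa using this
    exact (pow_le_one' h2 N).trans_lt hx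

/-- conjugates of `x > 1` are at most `x^2` -/
theorem conj_le_sq {G : Type} [Group G] [LinearOrder G] [MulLeftMono G] [MulRightMono G]
    (hG : V G) (x c : G) (hx : 1 < x) : c⁻¹ * x * c < x * x := by
  have h1 := wa1 hV hAP hG x c hx 1
  rw [pow_one] at h1
  have h2 := mul_lt_mul_right h1 x
  have e1 : x * (x⁻¹ * (c⁻¹ * x * c)) = c⁻¹ * x * c := by group
  rwa [e1] at h2

end main

end Pool.Agent.H74
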