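import Pool.Agent.H74.LGTotal

set_option linter.unusedSectionVars false

/-!
# Totally ordered members: conjugates are archimedean equivalent, weak abelianness
-/

namespace Pool.Agent.H74

open Function Filter

/-! ### Ultraproducts -/

section ultra

variable (G : ℕ → Type) [∀ n, Group (G n)] [∀ n, LinearOrder (G n)]
  [∀ n, MulLeftMono (G n)] [∀ n, MulRightMono (G n)]

instance pi_left : MulLeftMono (∀ n, G n) := ⟨fun _ _ _ h n => mul_le_mul_right (h n) _⟩

instance pi_right : MulRightMono (∀ n, G n) := ⟨fun _ _ _ h n => mul_le_mul_left (h n) _⟩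

/-- the cone of the ultraproduct -/
noncomputable def ucone : TCone (∀ n, G n) where
  P f := ∀ᶠ n in (hyperfilter ℕ : Filter ℕ), 1 ≤ f n
  one_le f hf := Eventually.of_forall hf
  mul f g hf hg := by
    filter_upwards [hf, hg] with n h1 h2
    exact one_le_mul h1 h2
  conj f g hf := by
    filter_upwards [hf] with n h1
    have := one_le_conj h1 (g n)⁻¹
    rwa [inv_inv] at this
  total f := by
    rw [← Ultrafilter.eventually_or]
    refine Eventually.of_forall (fun n => ?_)
    rcases le_total 1 (f n) with h | h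
    · exact Or.inl h
    · right
      change 1 ≤ (f n)⁻¹
      exact one_le_inv'.mpr h
  inf f hf := by
    filter_upwards [hf] with n h1
    exact le_inf h1 le_rfl

/-- the ultraproduct of a sequence of totally ordered groups -/
abbrev UP : Type := (ucone G).Q

/-- the quotient map -/
noncomputable abbrev up : (∀ n, G n) →* UP G := (ucone G).proj

lemma up_le {f g : ∀ n, G n} :
    up G f ≤ up G g ↔ ∀ᶠ n in (hyperfilter ℕ : Filter ℕ), f n ≤ g n := by
  rw [TCone.mk_le]
  change (∀ᶠ n in (hyperfilter ℕ : Filter ℕ), 1 ≤ (f n)⁻¹ * g n) ↔ _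
  refine eventually_congr (Eventually.of_forall (fun n => ?_))
  exact le_inv_mul_iff_le

lemma up_eq {f g : ∀ n, G n} :
    up G f = up G g ↔ ∀ᶠ n in (hyperfilter ℕ : Filter ℕ), f n = g n := by
  rw [le_antisymm_iff, up_le, up_le, ← eventually_and]
  exact eventually_congr (Eventually.of_forall (fun n => le_antisymm_iff.symm))

lemma up_lt {f g : ∀ n, G n} :
    up G f < up G g ↔ ∀ᶠ n in (hyperfilter ℕ : Filter ℕ), f n < g n := by
  rw [← not_le, up_le, ← Ultrafilter.eventually_not]
  exact eventually_congr (Eventually.of_forall (fun n => not_le))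

lemma up_one_lt {f : ∀ n, G n} :
    1 < up G f ↔ ∀ᶠ n in (hyperfilter ℕ : Filter ℕ), 1 < f n := by
  have : (1 : UP G) = up G 1 := (map_one _).symm
  rw [this, up_lt]; rfl

lemma up_eq_one {f : ∀ n, G n} :
    up G f = 1 ↔ ∀ᶠ n in (hyperfilter ℕ : Filter ℕ), f n = 1 := by
  have : (1 : UP G) = up G 1 := (map_one _).symm
  rw [this, up_eq]; rfl

end ultra

/-- cofinite events are hyperfilter events -/
lemma hyper_of_large {p : ℕ → Prop} (N : ℕ) (h : ∀ n, N ≤ n → p n) :
    ∀ᶠ n in (hyperfilter ℕ : Filter ℕ), p n := by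
  have h1 : ∀ᶠ n in (atTop : Filter ℕ), p n := eventually_atTop.mpr ⟨N, h⟩
  rw [← Nat.cofinite_eq_atTop] at h1
  exact hyperfilter_le_cofinite h1

/-! ### No large conjugates -/

section big

variable {G : Type} [Group G] [LinearOrder G] [MulLeftMono G] [MulRightMono G]

lemma conj_pow (x g : G) (n : ℕ) : (g⁻¹ * x * g) ^ n = g⁻¹ * x ^ n * g := by
  induction n with
  | zero => simp
  | succ n ih => rw [pow_succ, ih, pow_succ]; group

lemma conj_pow' (x g : G) (n : ℕ) : (g * x * g⁻¹) ^ n = g * x ^ n * g⁻¹ := by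
  have := conj_pow x g⁻¹ n
  rwa [inv_inv] at this

lemma conj_lt_conj {a b : G} (h : a < b) (x : G) : x⁻¹ * a * x < x⁻¹ * b * x :=
  mul_lt_mul_left (mul_lt_mul_right h _) _

lemma conj_le_iff {a b : G} (x : G) : x⁻¹ * a * x ≤ x⁻¹ * b * x ↔ a ≤ b := by
  constructor
  · intro h
    have := conj_le_conj h x⁻¹
    have e1 : x⁻¹⁻¹ * (x⁻¹ * a * x) * x⁻¹ = a := by group
    have e2 : x⁻¹⁻¹ * (x⁻¹ * b * x) * x⁻¹ = b := by group
    rwa [e1, e2] at this
  · exact fun h => conj_le_conj h x

/-- The convex subgroup generated by `a ≥ 1`. -/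
def hull (a : G) (_ha : 1 ≤ a) : Subgroup G where
  carrier := {g | ∃ n : ℕ, g ≤ a ^ n ∧ g⁻¹ ≤ a ^ n}
  one_mem' := ⟨0, by simp⟩
  mul_mem' := by
    rintro g h ⟨m, h1, h2⟩ ⟨n, h3, h4⟩
    refine ⟨m + n, ?_, ?_⟩
    · rw [pow_add]; exact mul_le_mul' h1 h3
    · rw [mul_inv_rev, add_comm, pow_add]; exact mul_le_mul' h4 h2
  inv_mem' := by
    rintro g ⟨m, h1, h2⟩
    exact ⟨m, h2, by rwa [inv_inv]⟩

instance subgroup_left (H : Subgroup G) : MulLeftMono H :=
  ⟨fun a _ _ h => mul_le_mul_right (α := G) h (a : G)⟩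

instance subgroup_right (H : Subgroup G) : MulRightMono H :=
  ⟨fun a _ _ h => mul_le_mul_left (α := G) h (a : G)⟩

lemma mul_pow_le_sq {u v w : G} (hu : u ≤ w) (hv : v ≤ w) (n : ℕ) : (u * v) ^ n ≤ w ^ (2 * n) := by
  rw [pow_mul, sq]
  exact pow_le_pow_left' (mul_le_mul' hu hv) n

/-- if `h ≪ a` and `g` lies in the hull of `a` then `g h g⁻¹ < a` -/
lemma conj_small {a h g : G} (hh : ∀ m : ℕ, h ^ m < a) {N : ℕ} (h1 : g ≤ a ^ N)
    (h2 : g⁻¹ ≤ a ^ N) : g * h * g⁻¹ < a := by
  by_contra hcon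
  rw [not_lt] at hcon
  have h3 : g⁻¹ * a * g ≤ h := by
    have := conj_le_conj hcon g
    have e1 : g⁻¹ * (g * h * g⁻¹) * g = h := by group
    rwa [e1] at this
  have h4 : ∀ m : ℕ, g⁻¹ * a ^ m * g < a := by
    intro m
    rw [← conj_pow]
    exact (pow_le_pow_left' h3 m).trans_lt (hh m)
  have h5 := h4 (2 * N + 1)
  have h6 : a ^ (2 * N + 1) < g * a * g⁻¹ := by
    have := conj_lt_conj h5 g⁻¹
    have e1 : g⁻¹⁻¹ * (g⁻¹ * a ^ (2 * N + 1) * g) * g⁻¹ = a ^ (2 * N + 1) := by group
    rw [e1, inv_inv] at this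
    exact this
  have h7 : g * a * g⁻¹ ≤ a ^ (2 * N + 1) := by
    have : a ^ (2 * N + 1) = a ^ N * a * a ^ N := by
      rw [← pow_succ, ← pow_add]; congr 1; omega
    rw [this]
    exact mul_le_mul' (mul_le_mul' h1 le_rfl) h2
  exact absurd h6 (not_lt.mpr h7)

/-- The cone on the hull of `a` that kills the elements infinitely smaller than `a`. -/
def smallCone (a : G) (ha : 1 ≤ a) : TCone (hull a ha) where
  P g := ∀ n : ℕ, ((g : G)⁻¹) ^ n < a ∨ 1 ≤ (g : G)
  one_le x hx n := Or.inr hx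
  mul x y hx hy n := by
    by_cases hxy : 1 ≤ (x * y : G)
    · exact Or.inr hxy
    left
    have hxy' : ¬ (1 ≤ (x : G) ∧ 1 ≤ (y : G)) := fun h => hxy (one_le_mul h.1 h.2)
    -- the larger of the inverses is small
    have e1 : (((x * y : hull a ha) : G)⁻¹) = (y : G)⁻¹ * (x : G)⁻¹ := by
      rw [Subgroup.coe_mul, mul_inv_rev]
    rw [e1]
    rcases le_total ((x : G)⁻¹) ((y : G)⁻¹) with h | h
    · refine (mul_pow_le_sq le_rfl h n).trans_lt ?_
      rcases hy (2 * n) with h1 | h1
      · exact h1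
      · have h2 : 1 ≤ (x : G) := by
          have : (x : G)⁻¹ ≤ 1 := h.trans (by simpa using h1)
          simpa using this
        exact absurd ⟨h2, h1⟩ hxy'
    · refine (mul_pow_le_sq h le_rfl n).trans_lt ?_
      rcases hx (2 * n) with h1 | h1
      · exact h1
      · have h2 : 1 ≤ (y : G) := by
          have : (y : G)⁻¹ ≤ 1 := h.trans (by simpa using h1)
          simpa using this
        exact absurd ⟨h1, h2⟩ hxy'
  conj x g hx n := by
    by_cases h1 : 1 ≤ (x : G)
    · right
      have := one_le_conj h1 (g : G)⁻¹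
      rw [inv_inv] at this
      exact this
    · left
      have hx' : ∀ m : ℕ, ((x : G)⁻¹) ^ m < a := fun m => (hx m).resolve_right h1
      obtain ⟨N, hN1, hN2⟩ := g.2
      have e1 : (((g * x * g⁻¹ : hull a ha) : G)⁻¹) ^ n = g * ((x : G)⁻¹) ^ n * (g : G)⁻¹ := by
        have : (((g * x * g⁻¹ : hull a ha) : G)⁻¹) = g * (x : G)⁻¹ * (g : G)⁻¹ := by
          simp only [Subgroup.coe_mul, Subgroup.coe_inv]; group
        rw [this, conj_pow']
      rw [e1]
      refine conj_small (N := N) ?_ hN1 hN2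
      intro m
      rw [← pow_mul]
      exact hx' _
  total x := by
    rcases le_total 1 (x : G) with h | h
    · exact Or.inl (fun n => Or.inr h)
    · right
      intro n
      right
      rw [Subgroup.coe_inv]
      exact one_le_inv'.mpr h
  inf x hx n := by
    have e1 : ((x ⊓ 1 : hull a ha) : G) = (x : G) ⊓ 1 := by
      rcases le_total x 1 with h | h
      · rw [inf_eq_left.mpr h, inf_eq_left.mpr (show (x : G) ≤ 1 from h)]
      · rw [inf_eq_right.mpr h, inf_eq_right.mpr (show 1 ≤ (x : G) from h)]; rfl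
    rw [e1]
    rcases hx n with h | h
    · rcases le_total 1 (x : G) with h1 | h1
      · right; exact le_inf h1 le_rfl
      · left; rw [inf_eq_left.mpr h1]; exact h
    · right; exact le_inf h le_rfl

end big

section main

variable {V : ∀ (α : Type) [Group α] [Lattice α], Prop} (hV : IsVar V) (hAP : AP V)

include hV hAP

/-- **Step 2.** In a totally ordered member of a variety with AP, no conjugate `c⁻¹ x c` of `x > 1`
is infinitely larger than `x`. -/
theorem no_big_conj {G : Type} [Group G] [LinearOrder G] [MulLeftMono G] [MulRightMono G]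
    (hG : V G) (x c : G) (hx : 1 < x) (h : ∀ n : ℕ, x ^ n < c⁻¹ * x * c) : False := by
  set a := c⁻¹ * x * c with ha
  have ha1 : 1 ≤ a := one_le_conj hx.le c
  let A := hull a ha1
  let T := smallCone a ha1
  have haA : a ∈ A := ⟨1, by simp, by simpa using (inv_le_one'.mpr ha1).trans ha1⟩
  have hxa : x < a := by simpa using h 1
  have hxA : x ∈ A := ⟨1, by simpa using hxa.le, by
    simpa using (inv_le_one'.mpr hx.le).trans ha1⟩
  have hA : V A := by
    refine hV.sub' (Subgroup.subtype A) (latHom_of_mono (fun _ _ h => h)) ?_ hG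
    exact Subgroup.subtype_injective A
  have hAQ : V (A × T.Q) := hV.prodQuo hA T.proj ⟨T.mk_sup, T.mk_inf⟩ T.proj_surj
  -- the formation
  let f : A →* A × T.Q := (MonoidHom.id A).prod T.proj
  have hf_lat : LatHom f :=
    ⟨fun a b => Prod.ext rfl (T.mk_sup a b), fun a b => Prod.ext rfl (T.mk_inf a b)⟩
  have hf_inj : Injective f := fun a b hab => congrArg Prod.fst hab
  let g : A →* G := Subgroup.subtype A
  have hg_lat : LatHom g := latHom_of_mono (fun _ _ h => h)
  have hg_inj : Injective g := Subgroup.subtype_injective A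
  obtain ⟨D, _, _, hD, p, k, hp, hpi, hk, hki, hpk⟩ :=
    hAP A (A × T.Q) G f g hf_lat hf_inj hg_lat hg_inj hA hAQ hG
  have := hV.left hD
  have := hV.right hD
  have hRep : Rep D := rep_of_ap hV hAP hD
  let ax : A := ⟨x, hxA⟩
  let aa : A := ⟨a, haA⟩
  have hπx : T.proj ax = 1 := by
    rw [T.mk_eq_one]
    refine ⟨fun n => Or.inr hx.le, fun n => Or.inl ?_⟩
    have e1 : (((ax⁻¹ : A) : G)⁻¹) = x := by simp [ax]
    rw [e1]; exact h n
  have hπa : T.proj aa ≠ 1 := by
    intro hcon
    rw [T.mk_eq_one] at hcon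
    have e1 : (((aa⁻¹ : A) : G)) = a⁻¹ := by simp [aa]
    rcases hcon.2 1 with h1 | h1
    · rw [e1, inv_inv, pow_one] at h1
      exact lt_irrefl _ h1
    · rw [e1] at h1
      have : a ≤ 1 := by simpa using h1
      exact absurd (hx.trans hxa) (not_lt.mpr this)
  have h1πa : 1 ≤ T.proj aa := by
    rw [T.one_le_mk]; exact fun n => Or.inr ha1
  let e : A × T.Q := (1, T.proj aa)
  have he1 : e ⊓ f ax = 1 := by
    have : f ax = (ax, 1) := Prod.ext rfl hπx
    rw [this]
    refine Prod.ext ?_ ?_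
    · exact inf_eq_left.mpr (show (1 : A) ≤ ax from hx.le)
    · exact inf_eq_right.mpr h1πa
  have he2 : e ≤ f aa := by
    refine Prod.mk_le_mk.mpr ⟨?_, le_rfl⟩
    exact (show (1 : A) ≤ aa from ha1)
  have h1 : p e ⊓ p (f ax) = 1 := by rw [← hp.2, he1, map_one]
  have h2 := hRep _ _ h1 (k c)
  have h3 : (k c)⁻¹ * p (f ax) * k c = p (f aa) := by
    rw [hpk, hpk, ← map_inv, ← map_mul, ← map_mul]
    congr 1
  rw [h3, inf_eq_left.mpr (hp.mono he2)] at h2
  have h4 : e = 1 := hpi (by rw [h2, map_one])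
  exact hπa (congrArg Prod.snd h4)

end main

end Pool.Agent.H74
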